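import Pool.Agent.Lib_helper2.GKF.LOC
import Pool.Agent.Lib_helper54.GKP.CX2

/-!
# Commutators with a commutative algebra
-/

set_option autoImplicit false

universe u v

namespace Pool.Agent.GKU

open Pool.Agent.GK Pool.Agent.GKP

section alg
variable (k : Type u) [Field k] {H : Type v} [Ring H] [Bialgebra k H]

/-- the commutator as a bilinear map -/
def cm : H →ₗ[k] H →ₗ[k] H := LinearMap.mul k H - (LinearMap.mul k H).flip

theorem cm_apply (a x : H) : cm k a x = a * x - x * a := by
  simp [cm]

/-- span of the commutators -/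
def br (E X : Submodule k H) : Submodule k H := Submodule.map₂ (cm k) E X

theorem br_mem {E X : Submodule k H} {a x : H} (ha : a ∈ E) (hx : x ∈ X) : a * x - x * a ∈ br k E X := by
  rw [← cm_apply k]
  exact Submodule.apply_mem_map₂ _ ha hx

theorem br_le {E X P : Submodule k H} : br k E X ≤ P ↔ ∀ a ∈ E, ∀ x ∈ X, a * x - x * a ∈ P := by
  unfold br
  rw [Submodule.map₂_le]
  simp only [cm_apply]

theorem br_mono {E E' X X' : Submodule k H} (hE : E ≤ E') (hX : X ≤ X') : br k E X ≤ br k E' X' :=
  Submodule.map₂_le_map₂ hE hX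

theorem br_fg {E X : Submodule k H} (hE : E.FG) (hX : X.FG) : (br k E X).FG := hE.map₂ _ hX

theorem br_bot (E : Submodule k H) : br k E ⊥ = ⊥ := Submodule.map₂_bot_right _ _

theorem br_iSup {ι : Sort*} (E : Submodule k H) (X : ι → Submodule k H) : br k E (⨆ i, X i) = ⨆ i, br k E (X i) :=
  Submodule.map₂_iSup_right _ _ _

theorem br_sup (E X Y : Submodule k H) : br k E (X ⊔ Y) = br k E X ⊔ br k E Y :=
  Submodule.map₂_sup_right _ _ _ _

theorem br_sup_left (E E' X : Submodule k H) : br k (E ⊔ E') X = br k E X ⊔ br k E' X :=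
  Submodule.map₂_sup_left _ _ _ _

theorem mul_le_br (E X : Submodule k H) : E * X ≤ X * E ⊔ br k E X := by
  rw [Submodule.mul_le]
  intro e he x hx
  have : e * x = x * e + (e * x - x * e) := by abel
  rw [this]
  exact Submodule.add_mem_sup (Submodule.mul_mem_mul hx he) (br_mem k he hx)

theorem le_mul_one {E : Submodule k H} (h1 : (1 : H) ∈ E) (X : Submodule k H) : X ≤ X * E := by
  intro x hx
  have := Submodule.mul_mem_mul hx h1
  rwa [mul_one] at this

theorem le_one_mul {E : Submodule k H} (h1 : (1 : H) ∈ E) (X : Submodule k H) : X ≤ E * X := by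
  intro x hx
  have := Submodule.mul_mem_mul h1 hx
  rwa [one_mul] at this

theorem mul_le_of_br {E X : Submodule k H} (h1 : (1 : H) ∈ E) (hX : br k E X ≤ X) : E * X ≤ X * E :=
  (mul_le_br k E X).trans (sup_le le_rfl (hX.trans (le_mul_one k h1 X)))

theorem pow_mul_le {E X : Submodule k H} (h1 : (1 : H) ∈ E) (hX : br k E X ≤ X) (n : ℕ) : E ^ n * X ≤ X * E ^ n := by
  induction n with
  | zero => rw [pow_zero, one_mul, mul_one]
  | succ n ih =>
    rw [pow_succ, mul_assoc]
    refine (mul_le_mul' le_rfl (mul_le_of_br k h1 hX)).trans ?_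
    rw [← mul_assoc]
    refine (mul_le_mul' ih le_rfl).trans ?_
    rw [mul_assoc, ← pow_succ]

theorem Kc_mul (E X : Submodule k H) : Kc k E * X = ⨆ n : ℕ, E ^ n * X := Submodule.iSup_mul _ _

theorem Kc_mul_le {E X : Submodule k H} (h1 : (1 : H) ∈ E) (hX : br k E X ≤ X) : Kc k E * X ≤ X * Kc k E := by
  rw [Kc_mul]
  exact iSup_le fun n => (pow_mul_le k h1 hX n).trans (mul_le_mul' le_rfl (le_iSup (fun n : ℕ => E ^ n) n))

/-- the closure under commutators -/
def cl (E D : Submodule k H) (n : ℕ) : Submodule k H := ⨆ j : Fin (n + 1), (br k E)^[j.1] D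

theorem le_cl (E D : Submodule k H) (n : ℕ) : D ≤ cl k E D n :=
  le_iSup (fun j : Fin (n + 1) => (br k E)^[j.1] D) 0

theorem iter_fg {E D : Submodule k H} (hE : E.FG) (hD : D.FG) (j : ℕ) : ((br k E)^[j] D).FG := by
  induction j with
  | zero => exact hD
  | succ j ih => rw [Function.iterate_succ_apply']; exact br_fg k hE ih

theorem iter_mono {E D D' : Submodule k H} (h : D ≤ D') (j : ℕ) : (br k E)^[j] D ≤ (br k E)^[j] D' := by
  induction j with
  | zero => exact h
  | succ j ih => rw [Function.iterate_succ_apply', Function.iterate_succ_apply']; exact br_mono k le_rfl ih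

theorem iter_bot_of_le {E D : Submodule k H} {n m : ℕ} (h : n ≤ m) (hD : (br k E)^[n] D = ⊥) :
    (br k E)^[m] D = ⊥ := by
  obtain ⟨c, rfl⟩ := Nat.exists_eq_add_of_le h
  induction c with
  | zero => exact hD
  | succ c ih => rw [← add_assoc, Function.iterate_succ_apply', ih (by omega), br_bot]

theorem cl_fg {E D : Submodule k H} (hE : E.FG) (hD : D.FG) (n : ℕ) : (cl k E D n).FG :=
  Submodule.fg_iSup _ fun j => iter_fg k hE hD j.1

theorem cl_br {E D : Submodule k H} {n : ℕ} (h : (br k E)^[n] D = ⊥) : br k E (cl k E D n) ≤ cl k E D n := by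
  unfold cl
  rw [br_iSup]
  refine iSup_le fun j => ?_
  rw [← Function.iterate_succ_apply' (br k E)]
  by_cases hj : j.1 + 1 ≤ n
  · exact le_iSup (fun j : Fin (n + 1) => (br k E)^[j.1] D) ⟨j.1 + 1, by omega⟩
  · rw [iter_bot_of_le k (by omega : n ≤ j.1.succ) h]
    exact bot_le

theorem cl_mono {E D D' : Submodule k H} (h : D ≤ D') (n : ℕ) : cl k E D n ≤ cl k E D' n :=
  iSup_mono fun j => iter_mono k h j.1

theorem iter_le_KDK {E : Submodule k H} (h1 : (1 : H) ∈ E) (D : Submodule k H) (j : ℕ) :
    (br k E)^[j] D ≤ Kc k E * D * Kc k E := by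
  have hK1 : (1 : H) ∈ Kc k E := Submodule.mem_iSup_of_mem 0 (by rw [pow_zero]; exact Submodule.one_le.1 le_rfl)
  have hEK : E ≤ Kc k E := by
    have := le_iSup (fun n : ℕ => E ^ n) 1
    rwa [pow_one] at this
  have hE1 : (1 : Submodule k H) ≤ E := Submodule.one_le.2 h1
  have hKK : Kc k E * Kc k E ≤ Kc k E := by
    rw [Kc_mul]
    refine iSup_le fun n => ?_
    unfold Kc
    rw [Submodule.mul_iSup]
    refine iSup_le fun m => ?_
    rw [← pow_add]
    exact le_iSup (fun n : ℕ => E ^ n) (n + m)
  induction j with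
  | zero =>
    intro x hx
    have := Submodule.mul_mem_mul (Submodule.mul_mem_mul hK1 hx) hK1
    rwa [one_mul, mul_one] at this
  | succ j ih =>
    rw [Function.iterate_succ_apply', br_le]
    intro a ha x hx
    refine Submodule.sub_mem _ ?_ ?_
    · have h2 : a * x ∈ Kc k E * (Kc k E * D * Kc k E) := Submodule.mul_mem_mul (hEK ha) (ih hx)
      rw [← mul_assoc, ← mul_assoc] at h2
      exact mul_le_mul' (mul_le_mul' hKK le_rfl) le_rfl h2
    · have h2 : x * a ∈ (Kc k E * D * Kc k E) * Kc k E := Submodule.mul_mem_mul (ih hx) (hEK ha)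
      rw [mul_assoc] at h2
      exact mul_le_mul' le_rfl hKK h2

/-- commutators with the whole algebra -/
theorem comm_Kc {E X : Submodule k H} (h1 : (1 : H) ∈ E) (hX : br k E X ≤ X) {a x : H} (ha : a ∈ Kc k E)
    (hx : x ∈ X) : a * x - x * a ∈ br k E X * Kc k E := by
  have hE1 : (1 : Submodule k H) ≤ E := Submodule.one_le.2 h1
  have hle : ∀ n, E ^ n ≤ Kc k E := fun n => le_iSup (fun n : ℕ => E ^ n) n
  have hKK : Kc k E * Kc k E ≤ Kc k E := by
    rw [Kc_mul]
    refine iSup_le fun n => ?_
    unfold Kc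
    rw [Submodule.mul_iSup]
    refine iSup_le fun m => ?_
    rw [← pow_add]
    exact le_iSup (fun n : ℕ => E ^ n) (n + m)
  have hE : E ≤ Kc k E := by
    have := hle 1
    rwa [pow_one] at this
  have key : ∀ n : ℕ, br k (E ^ n) X ≤ br k E X * Kc k E := by
    intro n
    induction n with
    | zero =>
      rw [br_le]
      intro a ha x hx
      rw [pow_zero, Submodule.one_eq_span, Submodule.mem_span_singleton] at ha
      obtain ⟨c, rfl⟩ := ha
      rw [smul_mul_assoc, mul_smul_comm, one_mul, mul_one, sub_self]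
      exact Submodule.zero_mem _
    | succ n ih =>
      rw [br_le]
      intro a ha x hx
      rw [pow_succ'] at ha
      induction ha using Submodule.mul_induction_on' with
      | mem_mul_mem e he b hb =>
        have h2 : e * b * x - x * (e * b) = e * (b * x - x * b) + (e * x - x * e) * b := by
          noncomm_ring
        rw [h2]
        refine Submodule.add_mem _ ?_ ?_
        · have h3 : e * (b * x - x * b) ∈ E * (br k E X * Kc k E) :=
            Submodule.mul_mem_mul he (ih (br_mem k hb hx))
          rw [← mul_assoc] at h3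
          have h4 : E * br k E X ≤ br k E X * E := mul_le_of_br k h1 (br_mono k le_rfl hX)
          have h5 := mul_le_mul' h4 (le_refl (Kc k E)) h3
          rw [mul_assoc] at h5
          exact mul_le_mul' le_rfl ((mul_le_mul' hE le_rfl).trans hKK) h5
        · exact Submodule.mul_mem_mul (br_mem k he hx) (hle n hb)
      | add a _ b _ iha ihb =>
        have h2 : (a + b) * x - x * (a + b) = (a * x - x * a) + (b * x - x * b) := by noncomm_ring
        rw [h2]
        exact Submodule.add_mem _ iha ihb
  have h2 : Kc k E ≤ (br k E X * Kc k E).comap ((cm k).flip x) := by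
    refine iSup_le fun n => ?_
    intro b hb
    rw [Submodule.mem_comap, LinearMap.flip_apply, cm_apply]
    exact key n (br_mem k hb hx)
  have := h2 ha
  rwa [Submodule.mem_comap, LinearMap.flip_apply, cm_apply] at this

end alg

section nil
variable (k : Type u) [Field k] {H : Type v} [Ring H] [Bialgebra k H]

theorem br_span_singleton_iter (a : H) {D : Submodule k H} {n : ℕ}
    (h : ∀ x ∈ D, ((cm k a)^[n]) x = 0) : (br k (Submodule.span k {a}))^[n] D = ⊥ := by
  have key : ∀ j : ℕ, (br k (Submodule.span k {a}))^[j] D ≤ D.map ((cm k a) ^ j) := by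
    intro j
    induction j with
    | zero => rw [pow_zero]; intro x hx; exact ⟨x, hx, rfl⟩
    | succ j ih =>
      rw [Function.iterate_succ_apply']
      refine (br_mono k le_rfl ih).trans ?_
      rw [br_le]
      rintro b hb _ ⟨x, hx, rfl⟩
      obtain ⟨c, rfl⟩ := Submodule.mem_span_singleton.1 hb
      refine ⟨c • x, D.smul_mem c hx, ?_⟩
      rw [pow_succ', Module.End.mul_apply, map_smul, map_smul, cm_apply, smul_mul_assoc, mul_smul_comm, smul_sub]
  rw [eq_bot_iff]
  refine (key n).trans ?_
  rintro _ ⟨x, hx, rfl⟩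
  rw [Module.End.pow_apply, h x hx]
  exact Submodule.zero_mem _

theorem exists_iter_singleton (a : H) (ha : ∀ x : H, ∃ n : ℕ, ((cm k a)^[n]) x = 0) {D : Submodule k H} (hD : D.FG) :
    ∃ n : ℕ, (br k (Submodule.span k {a}))^[n] D = ⊥ := by
  obtain ⟨S, rfl⟩ := hD
  choose N hN using ha
  refine ⟨∑ s ∈ S, N s, br_span_singleton_iter k a fun x hx => ?_⟩
  have h0 : ∀ m : ℕ, ((cm k a)^[m]) (0 : H) = 0 := by
    intro m
    have := map_zero ((cm k a) ^ m)
    rwa [Module.End.pow_apply] at this
  have h1 : Submodule.span k (S : Set H) ≤ LinearMap.ker ((cm k a) ^ (∑ s ∈ S, N s)) := by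
    rw [Submodule.span_le]
    intro s hs
    rw [SetLike.mem_coe, LinearMap.mem_ker, Module.End.pow_apply]
    have h2 : N s ≤ ∑ s ∈ S, N s := Finset.single_le_sum (fun _ _ => Nat.zero_le _) hs
    obtain ⟨c, hc⟩ := Nat.exists_eq_add_of_le h2
    rw [hc, add_comm, Function.iterate_add_apply, hN, h0]
  have := h1 hx
  rwa [LinearMap.mem_ker, Module.End.pow_apply] at this

/-- iterated commutators with two commuting spaces -/
theorem iter_sup {E F : Submodule k H} (hEF : ∀ a ∈ E, ∀ b ∈ F, a * b = b * a) (D : Submodule k H) (n : ℕ) :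
    (br k (E ⊔ F))^[n] D ≤ ⨆ i : Fin (n + 1), (br k E)^[i.1] ((br k F)^[n - i.1] D) := by
  have hswap : ∀ X : Submodule k H, br k F (br k E X) ≤ br k E (br k F X) := by
    intro X
    have : br k E X ≤ ⨅ b : F, (br k E (br k F X)).comap (cm k b.1) := by
      rw [br_le]
      intro a ha x hx
      rw [Submodule.mem_iInf]
      rintro ⟨b, hb⟩
      rw [Submodule.mem_comap, cm_apply]
      have h1 : b * (a * x - x * a) - (a * x - x * a) * b = a * (b * x - x * b) - (b * x - x * b) * a +
          ((b * a - a * b) * x + x * (a * b - b * a)) := by noncomm_ring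
      rw [h1, hEF a ha b hb, sub_self, zero_mul, mul_zero, add_zero, add_zero]
      exact br_mem k ha (br_mem k hb hx)
    rw [br_le]
    intro b hb y hy
    have h2 := this hy
    rw [Submodule.mem_iInf] at h2
    have h3 := h2 ⟨b, hb⟩
    rwa [Submodule.mem_comap, cm_apply] at h3
  have hswapi : ∀ (i : ℕ) (X : Submodule k H), br k F ((br k E)^[i] X) ≤ (br k E)^[i] (br k F X) := by
    intro i
    induction i with
    | zero => intro X; exact le_rfl
    | succ i ih =>
      intro X
      rw [Function.iterate_succ_apply', Function.iterate_succ_apply']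
      exact (hswap _).trans (br_mono k le_rfl (ih X))
  induction n with
  | zero => exact le_iSup (fun i : Fin 1 => (br k E)^[i.1] ((br k F)^[0 - i.1] D)) 0
  | succ n ih =>
    rw [Function.iterate_succ_apply']
    refine (br_mono k le_rfl ih).trans ?_
    rw [br_iSup]
    refine iSup_le fun i => ?_
    rw [br_sup_left]
    refine sup_le ?_ ?_
    · refine le_trans ?_ (le_iSup _ (⟨i.1 + 1, by omega⟩ : Fin (n + 1 + 1)))
      rw [← Function.iterate_succ_apply' (br k E)]
      show (br k E)^[i.1 + 1] _ ≤ (br k E)^[i.1 + 1] ((br k F)^[n + 1 - (i.1 + 1)] D)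
      rw [show n + 1 - (i.1 + 1) = n - i.1 by omega]
    · refine le_trans ?_ (le_iSup _ (⟨i.1, by omega⟩ : Fin (n + 1 + 1)))
      refine (hswapi i.1 _).trans ?_
      rw [← Function.iterate_succ_apply' (br k F)]
      show (br k E)^[i.1] ((br k F)^[n - i.1 + 1] D) ≤ (br k E)^[i.1] ((br k F)^[n + 1 - i.1] D)
      rw [show n + 1 - i.1 = n - i.1 + 1 by omega]

/-- a finitely generated commutative space of elements with locally nilpotent commutators -/
theorem exists_iter {A : Submodule k H} (hcomm : ∀ a ∈ A, ∀ b ∈ A, a * b = b * a)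
    (hnil : ∀ a ∈ A, ∀ x : H, ∃ n : ℕ, ((cm k a)^[n]) x = 0) {E : Submodule k H} (hE : E.FG) (hEA : E ≤ A) :
    ∀ {D : Submodule k H}, D.FG → ∃ n : ℕ, (br k E)^[n] D = ⊥ := by
  classical
  obtain ⟨S, rfl⟩ := hE
  induction S using Finset.induction_on with
  | empty =>
    intro D _
    refine ⟨1, ?_⟩
    rw [Function.iterate_one, Finset.coe_empty, Submodule.span_empty]
    exact Submodule.map₂_bot_left _ _
  | insert a S haS ih =>
    intro D hD
    have hEA' : Submodule.span k {a} ⊔ Submodule.span k (S : Set H) ≤ A := by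
      rwa [Finset.coe_insert, Submodule.span_insert] at hEA
    obtain ⟨n1, hn1⟩ := ih (le_sup_right.trans hEA') hD
    have haA : a ∈ A := hEA' (Submodule.mem_sup_left (Submodule.mem_span_singleton_self a))
    have hSfg : (Submodule.span k (S : Set H)).FG := ⟨S, rfl⟩
    obtain ⟨M, hM⟩ := exists_iter_singleton k a (hnil a haA) (cl_fg k hSfg hD n1)
    refine ⟨M + n1, ?_⟩
    rw [Finset.coe_insert, Submodule.span_insert, eq_bot_iff]
    refine (iter_sup k (fun b hb c hc => hcomm b (hEA' (Submodule.mem_sup_left hb)) c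
      (hEA' (Submodule.mem_sup_right hc))) D (M + n1)).trans ?_
    refine iSup_le fun i => ?_
    by_cases hi : M ≤ i.1
    · have h1 : (br k (Submodule.span k (S : Set H)))^[M + n1 - i.1] D ≤ cl k (Submodule.span k (S : Set H)) D n1 := by
        by_cases h2 : M + n1 - i.1 ≤ n1
        · exact le_iSup (fun j : Fin (n1 + 1) => (br k (Submodule.span k (S : Set H)))^[j.1] D)
            ⟨M + n1 - i.1, by omega⟩
        · rw [iter_bot_of_le k (by omega : n1 ≤ M + n1 - i.1) hn1]
          exact bot_le
      refine (iter_mono k h1 i.1).trans ?_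
      rw [iter_bot_of_le k hi hM]
    · rw [iter_bot_of_le k (by omega : n1 ≤ M + n1 - i.1) hn1]
      have : ∀ j : ℕ, (br k (Submodule.span k {a}))^[j] (⊥ : Submodule k H) = ⊥ := by
        intro j
        induction j with
        | zero => rfl
        | succ j ih => rw [Function.iterate_succ_apply', ih, br_bot]
      rw [this]

end nil

end Pool.Agent.GKU
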