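import Pool.Agent.Lib_helper2.GKU.U9
import Pool.Agent.Lib_helper2.GKF.PGR

/-!
# The pointed case
-/

set_option autoImplicit false

universe u v

namespace Pool.Agent.GKU

open TensorProduct Pool.Agent.GK Pool.Agent.GKP Pool.Agent.GKF Pool.Agent.GKC

section pointed
variable (k : Type u) [Field k] {H : Type v} [Ring H] [HopfAlgebra k H]

/-- finitely many commuting elements with locally nilpotent commutators -/
theorem exists_iter_gen (S : Finset H) (hcomm : ∀ a ∈ S, ∀ b ∈ S, a * b = b * a)
    (hnil : ∀ a ∈ S, ∀ x : H, ∃ n : ℕ, ((cm k a)^[n]) x = 0) :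
    ∀ {D : Submodule k H}, D.FG → ∃ n : ℕ, (br k (Submodule.span k (S : Set H)))^[n] D = ⊥ := by
  classical
  induction S using Finset.induction_on with
  | empty =>
    intro D _
    refine ⟨1, ?_⟩
    rw [Function.iterate_one, Finset.coe_empty, Submodule.span_empty]
    exact Submodule.map₂_bot_left _ _
  | insert a S haS ih =>
    intro D hD
    obtain ⟨n1, hn1⟩ := ih (fun a ha b hb => hcomm a (Finset.mem_insert_of_mem ha) b (Finset.mem_insert_of_mem hb))
      (fun a ha => hnil a (Finset.mem_insert_of_mem ha)) hD
    have hSfg : (Submodule.span k (S : Set H)).FG := ⟨S, rfl⟩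
    obtain ⟨M, hM⟩ := exists_iter_singleton k a (hnil a (Finset.mem_insert_self a S)) (cl_fg k hSfg hD n1)
    refine ⟨M + n1, ?_⟩
    have hab : ∀ b ∈ Submodule.span k {a}, ∀ c ∈ Submodule.span k (S : Set H), b * c = c * b := by
      intro b hb c hc
      obtain ⟨t, rfl⟩ := Submodule.mem_span_singleton.1 hb
      rw [smul_mul_assoc, mul_smul_comm]
      congr 1
      induction hc using Submodule.span_induction with
      | mem y hy => exact hcomm a (Finset.mem_insert_self a S) y (Finset.mem_insert_of_mem hy)
      | zero => rw [mul_zero, zero_mul]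
      | add y z _ _ hy hz => rw [mul_add, add_mul, hy, hz]
      | smul t y _ hy => rw [mul_smul_comm, smul_mul_assoc, hy]
    rw [Finset.coe_insert, Submodule.span_insert, eq_bot_iff]
    refine (iter_sup k hab D (M + n1)).trans ?_
    refine iSup_le fun i => ?_
    by_cases hi : M ≤ i.1
    · have h1 : (br k (Submodule.span k (S : Set H)))^[M + n1 - i.1] D ≤ cl k (Submodule.span k (S : Set H)) D n1 := by
        by_cases h2 : M + n1 - i.1 ≤ n1
        · exact le_iSup (fun j : Fin (n1 + 1) => (br k (Submodule.span k (S : Set H)))^[j.1] D)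
            ⟨M + n1 - i.1, by omega⟩
        · rw [iter_bot_of_le k (by omega : n1 ≤ M + n1 - i.1) hn1]
          exact bot_le
      refine (iter_mono k h1 i.1).trans ?_
      rw [iter_bot_of_le k hi hM]
    · rw [iter_bot_of_le k (by omega : n1 ≤ M + n1 - i.1) hn1]
      have : ∀ j : ℕ, (br k (Submodule.span k {a}))^[j] (⊥ : Submodule k H) = ⊥ := by
        intro j
        induction j with
        | zero => rfl
        | succ j ih => rw [Function.iterate_succ_apply', ih, br_bot]
      rw [this]

theorem iter_cm_mem (a : H) {E D : Submodule k H} (ha : a ∈ E) {x : H} (hx : x ∈ D) (n : ℕ) :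
    ((cm k a)^[n]) x ∈ (br k E)^[n] D := by
  induction n with
  | zero => exact hx
  | succ n ih =>
    rw [Function.iterate_succ_apply', Function.iterate_succ_apply', cm_apply]
    exact br_mem k ha ih

/-- the coradical of a pointed Hopf algebra -/
theorem pointed_coradical (hpt : coradical k H ≤ Submodule.span k {g : H | IsGroupLikeElem k g}) :
    coradical k H = Submodule.span k {g : H | IsGroupLikeElem k g} := by
  refine le_antisymm hpt ?_
  rw [Submodule.span_le]
  intro g hg
  have hg' : IsGroupLikeElem k g := hg
  have h1 : IsSimpleSubcoalgebra k (Submodule.span k {g}) := by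
    have hg0 : g ≠ 0 := by
      rintro rfl
      have := hg'.counit_eq_one
      rw [map_zero] at this
      exact zero_ne_one this
    refine ⟨?_, ?_, ?_⟩
    · intro x hx
      obtain ⟨a, rfl⟩ := Submodule.mem_span_singleton.1 hx
      rw [map_smul, hg'.comul_eq_tmul_self]
      exact Submodule.smul_mem _ _ (Pool.Agent.GKF.tmul_mem_tsp k (Submodule.mem_span_singleton_self _)
        (Submodule.mem_span_singleton_self _))
    · rw [Ne, Submodule.span_singleton_eq_bot]
      exact hg0
    · intro E _ hE
      by_cases h : E = ⊥
      · exact Or.inl h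
      · right
        refine le_antisymm hE ?_
        obtain ⟨y, hy, hy0⟩ := (Submodule.ne_bot_iff E).1 h
        obtain ⟨a, rfl⟩ := Submodule.mem_span_singleton.1 (hE hy)
        have ha : a ≠ 0 := by
          rintro rfl
          exact hy0 (zero_smul _ _)
        rw [Submodule.span_singleton_le_iff_mem]
        have := E.smul_mem a⁻¹ hy
        rwa [smul_smul, inv_mul_cancel₀ ha, one_smul] at this
  exact (le_sSup h1 : _ ≤ coradical k H) (Submodule.mem_span_singleton_self g)

theorem pointed_hyp (hpt : coradical k H ≤ Submodule.span k {g : H | IsGroupLikeElem k g})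
    (hab : ∀ g h : H, IsGroupLikeElem k g → IsGroupLikeElem k h → g * h = h * g)
    (huni : ∀ g : H, IsGroupLikeElem k g → ∀ x : H, ∃ n : ℕ,
      (fun y => g * y * HopfAlgebra.antipode k g - y)^[n] x = 0) :
    IsHopfSubalgebra k (coradical k H) ∧ (∀ a ∈ coradical k H, ∀ b ∈ coradical k H, a * b = b * a) ∧
      ∀ a ∈ coradical k H, ∀ x : H, ∃ n : ℕ, (fun y => a * y - y * a)^[n] x = 0 := by
  have hA := pointed_coradical k hpt
  have hcm : ∀ a ∈ coradical k H, ∀ b ∈ coradical k H, a * b = b * a := by
    rw [hA]
    intro a ha b hb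
    induction ha using Submodule.span_induction with
    | mem g hg =>
      induction hb using Submodule.span_induction with
      | mem h hh => exact hab g h hg hh
      | zero => rw [mul_zero, zero_mul]
      | add y z _ _ hy hz => rw [mul_add, add_mul, hy, hz]
      | smul t y _ hy => rw [mul_smul_comm, smul_mul_assoc, hy]
    | zero => rw [mul_zero, zero_mul]
    | add y z _ _ hy hz => rw [mul_add, add_mul, hy, hz]
    | smul t y _ hy => rw [mul_smul_comm, smul_mul_assoc, hy]
  have hnilg : ∀ g : H, IsGroupLikeElem k g → ∀ x : H, ∃ n : ℕ, ((cm k g)^[n]) x = 0 := by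
    intro g hg x
    obtain ⟨n, hn⟩ := huni g hg x
    refine ⟨n, ?_⟩
    have hSg : HopfAlgebra.antipode k g * g = 1 := hg.antipode_mul_cancel
    have key : ∀ (n : ℕ) (x : H), ((cm k g)^[n]) x =
        (fun y => g * y * HopfAlgebra.antipode k g - y)^[n] x * g ^ n := by
      intro n
      induction n with
      | zero => intro x; simp
      | succ n ih =>
        intro x
        rw [Function.iterate_succ_apply', Function.iterate_succ_apply', ih x, cm_apply]
        set z := (fun y => g * y * HopfAlgebra.antipode k g - y)^[n] x with hz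
        rw [_root_.sub_mul, pow_succ', ← mul_assoc, ← mul_assoc, mul_assoc (g * z) _ g, hSg, mul_one,
          ← pow_succ', pow_succ, ← mul_assoc]
    rw [key, hn, zero_mul]
  refine ⟨⟨?_, ?_, ?_, ?_⟩, hcm, ?_⟩
  · exact one_mem_coradical k
  · rw [hA]
    intro a ha b hb
    have h1 : Submodule.span k {g : H | IsGroupLikeElem k g} * Submodule.span k {g : H | IsGroupLikeElem k g} ≤
        Submodule.span k {g : H | IsGroupLikeElem k g} := by
      rw [Submodule.span_mul_span, Submodule.span_le]
      rintro _ ⟨g, hg, h, hh, rfl⟩
      have hg' : IsGroupLikeElem k g := hg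
      have hh' : IsGroupLikeElem k h := hh
      exact Submodule.subset_span (hg'.mul hh')
    exact h1 (Submodule.mul_mem_mul ha hb)
  · exact GKP.coradical_sub k
  · rw [hA]
    intro a ha
    have h1 : Submodule.span k {g : H | IsGroupLikeElem k g} ≤
        (Submodule.span k {g : H | IsGroupLikeElem k g}).comap (HopfAlgebra.antipode k) := by
      rw [Submodule.span_le]
      intro g hg
      have hg' : IsGroupLikeElem k g := hg
      exact Submodule.subset_span hg'.antipode
    exact h1 ha
  · intro a ha x
    obtain ⟨S, hS, hES⟩ := exists_finset_span k (Submodule.span k {a}) (Submodule.fg_span_singleton a) _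
      ((Submodule.span_singleton_le_iff_mem _ _).2 (hpt ha))
    obtain ⟨n, hn⟩ := exists_iter_gen k S (fun g hg h hh => hab g h (hS hg) (hS hh))
      (fun g hg => hnilg g (hS hg)) (Submodule.fg_span_singleton (R := k) x)
    refine ⟨n, ?_⟩
    have h1 := iter_cm_mem k a (hES (Submodule.mem_span_singleton_self a)) (Submodule.mem_span_singleton_self (R := k) x) n
    rw [hn, Submodule.mem_bot] at h1
    have h2 : ((cm k a : H →ₗ[k] H) : H → H) = fun y => a * y - y * a := funext fun y => cm_apply k a y
    rw [h2] at h1
    exact h1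

end pointed

end Pool.Agent.GKU
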