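import Pool.Agent.Lib_helper2.GKU.U1

/-!
# Letters for a subcoalgebra over a commutative coradical with locally nilpotent commutators
-/

set_option autoImplicit false

universe u v

namespace Pool.Agent.GKU

open TensorProduct Pool.Agent.GK Pool.Agent.GKP

section kc
variable (k : Type u) [Field k] {H : Type v} [Ring H] [Bialgebra k H]

theorem Kc_comm {E : Submodule k H} (hcomm : ∀ a ∈ E, ∀ b ∈ E, a * b = b * a) :
    ∀ a ∈ Kc k E, ∀ b ∈ Kc k E, a * b = b * a := by
  have h1 : ∀ (n : ℕ), ∀ a ∈ E ^ n, ∀ b ∈ E, a * b = b * a := by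
    intro n
    induction n with
    | zero =>
      intro a ha b _
      rw [pow_zero, Submodule.one_eq_span, Submodule.mem_span_singleton] at ha
      obtain ⟨c, rfl⟩ := ha
      rw [smul_mul_assoc, mul_smul_comm, one_mul, mul_one]
    | succ n ih =>
      intro a ha b hb
      rw [pow_succ] at ha
      induction ha using Submodule.mul_induction_on' with
      | mem_mul_mem a ha c hc => rw [mul_assoc, hcomm c hc b hb, ← mul_assoc, ih a ha b hb, mul_assoc]
      | add a _ c _ iha ihc => rw [add_mul, mul_add, iha, ihc]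
  have h2 : ∀ (n m : ℕ), ∀ a ∈ E ^ n, ∀ b ∈ E ^ m, a * b = b * a := by
    intro n m
    induction m with
    | zero =>
      intro a _ b hb
      rw [pow_zero, Submodule.one_eq_span, Submodule.mem_span_singleton] at hb
      obtain ⟨c, rfl⟩ := hb
      rw [smul_mul_assoc, mul_smul_comm, one_mul, mul_one]
    | succ m ih =>
      intro a ha b hb
      rw [pow_succ] at hb
      induction hb using Submodule.mul_induction_on' with
      | mem_mul_mem b hb c hc => rw [← mul_assoc, ih a ha b hb, mul_assoc, h1 n a ha c hc, ← mul_assoc]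
      | add b _ c _ ihb ihc => rw [add_mul, mul_add, ihb, ihc]
  intro a ha b hb
  unfold Kc at ha hb
  have key : ∀ a ∈ ⨆ n : ℕ, E ^ n, ∀ (m : ℕ), ∀ b ∈ E ^ m, a * b = b * a := by
    intro a ha
    induction ha using Submodule.iSup_induction' with
    | mem n a ha => exact fun m b hb => h2 n m a ha b hb
    | zero => intro m b _; rw [zero_mul, mul_zero]
    | add a c _ _ iha ihc => intro m b hb; rw [add_mul, mul_add, iha m b hb, ihc m b hb]
  induction hb using Submodule.iSup_induction' with
  | mem m b hb => exact key a ha m b hb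
  | zero => rw [zero_mul, mul_zero]
  | add b c _ _ ihb ihc => rw [add_mul, mul_add, ihb, ihc]

/-- the comultiplication of `K D K` -/
theorem comul_sandwich {K D P1 Q1 P2 Q2 P3 Q3 : Submodule k H} (hK : IsSubcoalgebra k K)
    (hD : ∀ d ∈ D, Coalgebra.comul (R := k) d ∈ tsp k P1 Q1 ⊔ tsp k P2 Q2 ⊔ tsp k P3 Q3) :
    ∀ y ∈ K * D * K, Coalgebra.comul (R := k) y ∈ tsp k (K * P1 * K) (K * Q1 * K) ⊔
      tsp k (K * P2 * K) (K * Q2 * K) ⊔ tsp k (K * P3 * K) (K * Q3 * K) := by
  have key : ∀ (P Q : Submodule k H) (s u t : H ⊗[k] H), s ∈ tsp k K K → u ∈ tsp k K K → t ∈ tsp k P Q →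
      s * t * u ∈ tsp k (K * P * K) (K * Q * K) := fun P Q s u t hs hu ht =>
    tsp_mul_tsp k (tsp_mul_tsp k hs ht) hu
  intro y hy
  induction hy using Submodule.mul_induction_on' with
  | mem_mul_mem z hz b hb =>
    induction hz using Submodule.mul_induction_on' with
    | mem_mul_mem a ha d hd =>
      rw [Bialgebra.comul_mul, Bialgebra.comul_mul]
      obtain ⟨t, ht, t3, ht3, h2⟩ := Submodule.mem_sup.1 (hD d hd)
      obtain ⟨t1, ht1, t2, ht2, h3⟩ := Submodule.mem_sup.1 ht
      rw [← h2, ← h3, mul_add, mul_add, add_mul, add_mul]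
      exact Submodule.add_mem_sup (Submodule.add_mem_sup (key _ _ _ _ _ (hK a ha) (hK b hb) ht1)
        (key _ _ _ _ _ (hK a ha) (hK b hb) ht2)) (key _ _ _ _ _ (hK a ha) (hK b hb) ht3)
    | add z _ z' _ ih ih' => rw [add_mul, map_add]; exact Submodule.add_mem _ ih ih'
  | add y _ y' _ ih ih' => rw [map_add]; exact Submodule.add_mem _ ih ih'

theorem iter_iSup {ι : Sort*} (E : Submodule k H) (X : ι → Submodule k H) (j : ℕ) :
    (br k E)^[j] (⨆ i, X i) = ⨆ i, (br k E)^[j] (X i) := by
  induction j with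
  | zero => rfl
  | succ j ih =>
    rw [Function.iterate_succ_apply', ih, br_iSup]
    exact iSup_congr fun i => (Function.iterate_succ_apply' _ _ _).symm

theorem cl_iter_bot {E D : Submodule k H} {n : ℕ} (h : (br k E)^[n] D = ⊥) : (br k E)^[n] (cl k E D n) = ⊥ := by
  unfold cl
  rw [iter_iSup, iSup_eq_bot]
  intro j
  rw [← Function.iterate_add_apply]
  exact iter_bot_of_le k (by omega) h

theorem cl_le {E D P : Submodule k H} (hP : br k E P ≤ P) (hD : D ≤ P) (n : ℕ) : cl k E D n ≤ P := by
  refine iSup_le fun j => ?_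
  have : ∀ j : ℕ, (br k E)^[j] D ≤ P := by
    intro j
    induction j with
    | zero => exact hD
    | succ j ih => rw [Function.iterate_succ_apply']; exact (br_mono k le_rfl ih).trans hP
  exact this j.1

/-- the comultiplication of a commutator -/
theorem comul_br {E K Z Mi : Submodule k H} (hE : IsSubcoalgebra k E) (hEK : E ≤ K) (hKK : K * K ≤ K)
    (hKc : ∀ a ∈ K, ∀ b ∈ K, a * b = b * a) (hM1 : K * Mi ≤ Mi) (hM2 : Mi * K ≤ Mi)
    (hZ : ∀ z ∈ Z, Coalgebra.comul (R := k) z ∈ tsp k (Z * K) K ⊔ tsp k K (Z * K) ⊔ tsp k Mi Mi) :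
    ∀ y ∈ br k E Z, Coalgebra.comul (R := k) y ∈ tsp k (br k E Z * K) K ⊔ tsp k K (br k E Z * K) ⊔ tsp k Mi Mi := by
  set P : Submodule k (H ⊗[k] H) := tsp k (br k E Z * K) K ⊔ tsp k K (br k E Z * K) ⊔ tsp k Mi Mi with hP
  -- the commutator with a tensor
  have key : ∀ s ∈ tsp k E E, ∀ t ∈ tsp k (Z * K) K ⊔ tsp k K (Z * K) ⊔ tsp k Mi Mi, s * t - t * s ∈ P := by
    have hlin : ∀ s : H ⊗[k] H, ∃ F : (H ⊗[k] H) →ₗ[k] (H ⊗[k] H), ∀ t, F t = s * t - t * s := fun s =>
      ⟨LinearMap.mulLeft k s - LinearMap.mulRight k s, fun t => by simp⟩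
    have hlin' : ∀ t : H ⊗[k] H, ∃ F : (H ⊗[k] H) →ₗ[k] (H ⊗[k] H), ∀ s, F s = s * t - t * s := fun t =>
      ⟨LinearMap.mulRight k t - LinearMap.mulLeft k t, fun s => by simp⟩
    have h1 : ∀ a ∈ E, ∀ b ∈ E, ∀ t ∈ tsp k (Z * K) K ⊔ tsp k K (Z * K) ⊔ tsp k Mi Mi,
        (a ⊗ₜ[k] b) * t - t * (a ⊗ₜ[k] b) ∈ P := by
      intro a ha b hb t ht
      obtain ⟨F, hF⟩ := hlin (a ⊗ₜ[k] b)
      rw [← hF]
      have h2 : tsp k (Z * K) K ⊔ tsp k K (Z * K) ⊔ tsp k Mi Mi ≤ P.comap F := by
        refine sup_le (sup_le ?_ ?_) ?_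
        · rw [tsp_le]
          intro y hy d hd
          rw [Submodule.mem_comap, hF, Algebra.TensorProduct.tmul_mul_tmul, Algebra.TensorProduct.tmul_mul_tmul,
            hKc d hd b (hEK hb), ← TensorProduct.sub_tmul]
          refine Submodule.mem_sup_left (Submodule.mem_sup_left (tmul_mem_tsp k ?_
            (hKK (Submodule.mul_mem_mul (hEK hb) hd))))
          induction hy using Submodule.mul_induction_on' with
          | mem_mul_mem z hz c hc =>
            have h3 : a * (z * c) - z * c * a = (a * z - z * a) * c := by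
              rw [mul_assoc z c a, hKc c hc a (hEK ha), _root_.sub_mul, mul_assoc, mul_assoc]
            rw [h3]
            exact Submodule.mul_mem_mul (br_mem k ha hz) hc
          | add y _ y' _ ih ih' =>
            have h3 : a * (y + y') - (y + y') * a = (a * y - y * a) + (a * y' - y' * a) := by noncomm_ring
            rw [h3]
            exact Submodule.add_mem _ ih ih'
        · rw [tsp_le]
          intro d hd y hy
          rw [Submodule.mem_comap, hF, Algebra.TensorProduct.tmul_mul_tmul, Algebra.TensorProduct.tmul_mul_tmul,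
            hKc d hd a (hEK ha), ← TensorProduct.tmul_sub]
          refine Submodule.mem_sup_left (Submodule.mem_sup_right (tmul_mem_tsp k
            (hKK (Submodule.mul_mem_mul (hEK ha) hd)) ?_))
          induction hy using Submodule.mul_induction_on' with
          | mem_mul_mem z hz c hc =>
            have h3 : b * (z * c) - z * c * b = (b * z - z * b) * c := by
              rw [mul_assoc z c b, hKc c hc b (hEK hb), _root_.sub_mul, mul_assoc, mul_assoc]
            rw [h3]
            exact Submodule.mul_mem_mul (br_mem k hb hz) hc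
          | add y _ y' _ ih ih' =>
            have h3 : b * (y + y') - (y + y') * b = (b * y - y * b) + (b * y' - y' * b) := by noncomm_ring
            rw [h3]
            exact Submodule.add_mem _ ih ih'
        · rw [tsp_le]
          intro y hy y' hy'
          rw [Submodule.mem_comap, hF, Algebra.TensorProduct.tmul_mul_tmul, Algebra.TensorProduct.tmul_mul_tmul]
          refine Submodule.mem_sup_right (Submodule.sub_mem _ ?_ ?_)
          · exact tmul_mem_tsp k (hM1 (Submodule.mul_mem_mul (hEK ha) hy)) (hM1 (Submodule.mul_mem_mul (hEK hb) hy'))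
          · exact tmul_mem_tsp k (hM2 (Submodule.mul_mem_mul hy (hEK ha))) (hM2 (Submodule.mul_mem_mul hy' (hEK hb)))
      exact h2 ht
    intro s hs t ht
    obtain ⟨F, hF⟩ := hlin' t
    rw [← hF]
    have h2 : tsp k E E ≤ P.comap F := by
      rw [tsp_le]
      intro a ha b hb
      rw [Submodule.mem_comap, hF]
      exact h1 a ha b hb t ht
    exact h2 hs
  have h2 : br k E Z ≤ P.comap (Coalgebra.comul (R := k)) := by
    rw [br_le]
    intro a ha z hz
    rw [Submodule.mem_comap, map_sub, Bialgebra.comul_mul, Bialgebra.comul_mul]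
    exact key _ (hE a ha) _ (hZ z hz)
  exact fun y hy => h2 hy

end kc

end Pool.Agent.GKU
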