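import Pool.Agent.Lib_helper2.GKU.U2

/-!
# The chain, its commutator filtration and the letters
-/

set_option autoImplicit false

universe u v

namespace Pool.Agent.GKU

open TensorProduct Pool.Agent.GK Pool.Agent.GKP

section chain
variable (k : Type u) [Field k] {H : Type v} [Ring H] [Bialgebra k H]

/-- the chain of a subcoalgebra relative to a subcoalgebra which contains the coradical -/
theorem chain_of (A C : Submodule k H) (hA : IsSubcoalgebra k A) (hcor : coradical k H ≤ A) (hCf : C.FG)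
    (hC : IsSubcoalgebra k C) :
    ∃ (r : ℕ) (D : ℕ → Submodule k H), D 0 = C ⊓ A ∧ D r = C ∧ Monotone D ∧ (∀ i, D i ≤ C) ∧
      (∀ i, IsSubcoalgebra k (D i)) ∧ ∀ i, ∀ x ∈ D (i + 1), Coalgebra.comul (R := k) x ∈
        tsp k (D (i + 1)) (D 0) ⊔ tsp k (D 0) (D (i + 1)) ⊔ tsp k (D i) (D i) := by
  obtain ⟨hKL, hKR⟩ := (FLAG_sub_iff k A).1 hA
  obtain ⟨hCL, hCR⟩ := (FLAG_sub_iff k C).1 hC
  obtain ⟨r, D, hD0, hDr, hmono, hDC, hDL, hDR, hst⟩ := (GKF.cp_inst k (H := H)).chain A C
    (GKF.simpleLe_of_coradical k A hcor) hKL hKR hCf hCL hCR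
  have hsub : ∀ i, IsSubcoalgebra k (D i) := fun i => (FLAG_sub_iff k (D i)).2 ⟨hDL i, hDR i⟩
  refine ⟨r, D, hD0, hDr, hmono, hDC, hsub, fun i x hx => ?_⟩
  have := GKF.step_tsp k A C (D i) (D (i + 1)) (hD0 ▸ hmono (Nat.zero_le i)) (hmono (Nat.le_succ i)) (hDC (i + 1))
      (hsub (i + 1) x hx) (hst i x hx)
  rwa [← hD0] at this

/-- data of the letters over `K`: `Y i j` is the `j`-th commutator space of level `i + 1`, `M i` is the
bimodule of level `i` -/
structure Lev (K C : Submodule k H) (n : ℕ) (M : ℕ → Submodule k H) (Y : ℕ → ℕ → Submodule k H) (r : ℕ) : Prop where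
  fg : ∀ i j, (Y i j).FG
  M0 : M 0 ≤ K
  MK : ∀ i, K ≤ M i
  Ms : ∀ i, M (i + 1) ≤ K ⊔ Y i 0 * K
  CM : C ≤ M r
  eps : ∀ i j, ∀ y ∈ Y i j, Coalgebra.counit (R := k) y = 0
  com : ∀ i j, ∀ a ∈ K, ∀ y ∈ Y i j, a * y - y * a ∈ Y i (j + 1) * K
  bot : ∀ i, Y i n = ⊥
  pow : ∀ i j, Y i j ≤ C ^ (n + 1)
  comul : ∀ i j, ∀ y ∈ Y i j, Coalgebra.comul (R := k) y ∈
    tsp k (Y i j * K) K ⊔ tsp k K (Y i j * K) ⊔ tsp k (M i) (M i)

end chain

section hopf
variable (k : Type u) [Field k] {H : Type v} [Ring H] [HopfAlgebra k H]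

theorem exists_lev (A C : Submodule k H) (hA : IsSubcoalgebra k A) (hcor : coradical k H ≤ A) (hCf : C.FG)
    (hC : IsSubcoalgebra k C) (h1C : (1 : H) ∈ C) (h1A : (1 : H) ∈ A)
    (hcomm : ∀ a ∈ C ⊓ A, ∀ b ∈ C ⊓ A, a * b = b * a) (n : ℕ) (hn : (br k (C ⊓ A))^[n] C = ⊥) :
    ∃ (r : ℕ) (M : ℕ → Submodule k H) (Y : ℕ → ℕ → Submodule k H), Lev k (Kc k (C ⊓ A)) C n M Y r := by
  obtain ⟨r, D, hD0, hDr, hmono, hDC, hDsub, hDc⟩ := chain_of k A C hA hcor hCf hC
  set E : Submodule k H := C ⊓ A with hE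
  set K : Submodule k H := Kc k E with hK
  have h1 : (1 : H) ∈ E := ⟨h1C, h1A⟩
  have hEs : IsSubcoalgebra k E := hD0 ▸ hDsub 0
  obtain ⟨hK1, hEK, hKK, hEn, -, hKs'⟩ := kc_facts k h1
  have hKs : IsSubcoalgebra k K := hKs' hEs
  have hKc := Kc_comm k hcomm
  have hfin : ∀ i, (D i).FG := by
    intro i
    have := Module.Finite.iff_fg.2 hCf
    have := Submodule.finiteDimensional_of_le (hDC i)
    exact Module.Finite.iff_fg.1 this
  have hEf : E.FG := hD0 ▸ hfin 0
  have hDn : ∀ i, (br k E)^[n] (D i) = ⊥ := by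
    intro i
    rw [eq_bot_iff, ← hn]
    exact iter_mono k (hDC i) n
  let X : ℕ → Submodule k H := fun i => cl k E (D i) n
  have hXbr : ∀ i, br k E (X i) ≤ X i := fun i => cl_br k (hDn i)
  have hDX : ∀ i, D i ≤ X i := fun i => le_cl k E (D i) n
  have hEX : ∀ i, E ≤ X i := fun i => (hD0 ▸ hmono (Nat.zero_le i) : E ≤ D i).trans (hDX i)
  have hXf : ∀ i, (X i).FG := fun i => cl_fg k hEf (hfin i) n
  have hXKD : ∀ i, X i ≤ K * D i * K := fun i => iSup_le fun j => iter_le_KDK k h1 (D i) j.1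
  have hXn : ∀ i, (br k E)^[n] (X i) = ⊥ := fun i => cl_iter_bot k (hDn i)
  -- `C ^ m` bounds
  have hEC : E ≤ C := inf_le_left
  have hiterC : ∀ i j, (br k E)^[j] (D i) ≤ C ^ (j + 1) := by
    intro i j
    induction j with
    | zero => rw [zero_add, pow_one]; exact hDC i
    | succ j ih =>
      rw [Function.iterate_succ_apply', br_le]
      intro a ha x hx
      refine Submodule.sub_mem _ ?_ ?_
      · rw [pow_succ']; exact Submodule.mul_mem_mul (hEC ha) (ih hx)
      · rw [pow_succ]; exact Submodule.mul_mem_mul (ih hx) (hEC ha)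
  have hXC : ∀ i, X i ≤ C ^ (n + 1) := by
    intro i
    refine iSup_le fun j => (hiterC i j.1).trans ?_
    exact pow_le_pow_right' (Submodule.one_le.2 h1C) (by omega)
  let M : ℕ → Submodule k H := fun i => K * D i * K
  have hKM : ∀ i, K * M i ≤ M i := by
    intro i
    show K * (K * D i * K) ≤ K * D i * K
    rw [← mul_assoc, ← mul_assoc]
    exact mul_le_mul' (mul_le_mul' hKK le_rfl) le_rfl
  have hMK : ∀ i, M i * K ≤ M i := by
    intro i
    show K * D i * K * K ≤ K * D i * K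
    rw [mul_assoc]
    exact mul_le_mul' le_rfl hKK
  have hMX : ∀ i, M i ≤ X i * K := by
    intro i
    show K * D i * K ≤ X i * K
    refine (mul_le_mul' ((mul_le_mul' le_rfl (hDX i)).trans (Kc_mul_le k h1 (hXbr i))) le_rfl).trans ?_
    rw [mul_assoc]
    exact mul_le_mul' le_rfl hKK
  have h1D : ∀ i, (1 : H) ∈ D i := fun i => (hD0 ▸ hmono (Nat.zero_le i) : E ≤ D i) h1
  have hKleM : ∀ i, K ≤ M i := by
    intro i a ha
    have := Submodule.mul_mem_mul (Submodule.mul_mem_mul ha (h1D i)) hK1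
    rwa [mul_one, mul_one] at this
  have hMcom : ∀ i, ∀ y ∈ M (i + 1), Coalgebra.comul (R := k) y ∈
      tsp k (M (i + 1)) K ⊔ tsp k K (M (i + 1)) ⊔ tsp k (M i) (M i) := by
    intro i y hy
    have h2 := comul_sandwich k hKs (hDc i) y hy
    have h3 : K * D 0 * K ≤ K := by
      rw [hD0]
      exact (mul_le_mul' ((mul_le_mul' le_rfl hEK).trans hKK) le_rfl).trans hKK
    have h4 : tsp k (K * D (i + 1) * K) (K * D 0 * K) ⊔ tsp k (K * D 0 * K) (K * D (i + 1) * K) ⊔
        tsp k (K * D i * K) (K * D i * K) ≤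
        tsp k (M (i + 1)) K ⊔ tsp k K (M (i + 1)) ⊔ tsp k (M i) (M i) :=
      sup_le_sup (sup_le_sup (tsp_mono k le_rfl h3) (tsp_mono k h3 le_rfl)) le_rfl
    exact h4 h2
  -- the augmented spaces
  let X' : ℕ → Submodule k H := fun i => (X i).map (GKF.aug k)
  have h1X : ∀ i, (1 : H) ∈ X i := fun i => hEX i h1
  have hX'X : ∀ i, X' i ≤ X i := by
    rintro i _ ⟨x, hx, rfl⟩
    rw [GKF.aug_apply]
    exact (X i).sub_mem hx ((X i).smul_mem _ (h1X i))
  have hXX' : ∀ i, X i ≤ Submodule.span k {1} ⊔ X' i := by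
    intro i x hx
    have : x = Coalgebra.counit (R := k) x • (1 : H) + GKF.aug k x := by rw [GKF.aug_apply]; abel
    rw [this]
    exact Submodule.add_mem_sup (Submodule.smul_mem _ _ (Submodule.mem_span_singleton_self 1))
      (Submodule.mem_map_of_mem hx)
  have hX'br : ∀ i, br k E (X' i) ≤ X' i := by
    intro i
    rw [br_le]
    rintro a ha _ ⟨x, hx, rfl⟩
    refine ⟨a * x - x * a, hXbr i (br_mem k ha hx), ?_⟩
    rw [GKF.aug_apply, GKF.aug_apply, map_sub, Bialgebra.counit_mul, Bialgebra.counit_mul, mul_comm, sub_self,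
      zero_smul, sub_zero, mul_sub, _root_.sub_mul, mul_smul_comm, smul_mul_assoc, mul_one, one_mul]
    abel
  let Y : ℕ → ℕ → Submodule k H := fun i j => (br k E)^[j] (X' (i + 1))
  have hYs : ∀ i j, Y i (j + 1) = br k E (Y i j) := fun i j => Function.iterate_succ_apply' _ _ _
  have hYbr : ∀ i j, br k E (Y i j) ≤ Y i j := by
    intro i j
    induction j with
    | zero => exact hX'br (i + 1)
    | succ j ih => rw [hYs]; exact br_mono k le_rfl ih
  have hYX : ∀ i j, Y i j ≤ X' (i + 1) := by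
    intro i j
    induction j with
    | zero => exact le_rfl
    | succ j ih => rw [hYs]; exact (hYbr i j).trans ih
  have hYeps : ∀ i j, ∀ y ∈ Y i j, Coalgebra.counit (R := k) y = 0 := by
    intro i j y hy
    obtain ⟨x, _, rfl⟩ := hYX i j hy
    exact GKF.counit_aug k x
  refine ⟨r, M, Y, ?_, ?_, hKleM, ?_, ?_, hYeps, ?_, ?_, ?_, ?_⟩
  · intro i j
    exact iter_fg k hEf ((hXf (i + 1)).map _) j
  · show K * D 0 * K ≤ K
    rw [hD0]
    exact (mul_le_mul' ((mul_le_mul' le_rfl hEK).trans hKK) le_rfl).trans hKK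
  · intro i
    refine (hMX (i + 1)).trans ((mul_le_mul' (hXX' (i + 1)) le_rfl).trans ?_)
    rw [Submodule.sup_mul]
    refine sup_le ?_ le_sup_right
    refine le_trans ?_ le_sup_left
    rw [← Submodule.one_eq_span, one_mul]
  · intro x hx
    have hx' : x ∈ D r := by rw [hDr]; exact hx
    have := Submodule.mul_mem_mul (Submodule.mul_mem_mul hK1 hx') hK1
    rwa [one_mul, mul_one] at this
  · intro i j a ha y hy
    rw [hYs]
    exact comm_Kc k h1 (hYbr i j) ha hy
  · intro i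
    rw [eq_bot_iff]
    have := iter_mono k (E := E) (hX'X (i + 1)) n
    rwa [hXn] at this
  · intro i j
    exact (hYX i j).trans ((hX'X (i + 1)).trans (hXC (i + 1)))
  · intro i j
    induction j with
    | zero =>
      rintro _ ⟨x, hx, rfl⟩
      have hxM : x ∈ M (i + 1) := hXKD (i + 1) hx
      have h2 := hMcom i x hxM
      have hMY : M (i + 1) ≤ K ⊔ Y i 0 * K := by
        refine (hMX (i + 1)).trans ((mul_le_mul' (hXX' (i + 1)) le_rfl).trans ?_)
        rw [Submodule.sup_mul]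
        refine sup_le ?_ le_sup_right
        refine le_trans ?_ le_sup_left
        rw [← Submodule.one_eq_span, one_mul]
      have hKKM : tsp k K K ≤ tsp k (M i) (M i) := tsp_mono k (hKleM i) (hKleM i)
      have h3 : Coalgebra.comul (R := k) x ∈
          tsp k (Y i 0 * K) K ⊔ tsp k K (Y i 0 * K) ⊔ tsp k (M i) (M i) := by
        have h4 : tsp k (M (i + 1)) K ⊔ tsp k K (M (i + 1)) ⊔ tsp k (M i) (M i) ≤
            tsp k (Y i 0 * K) K ⊔ tsp k K (Y i 0 * K) ⊔ tsp k (M i) (M i) := by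
          refine sup_le (sup_le ?_ ?_) le_sup_right
          · refine (tsp_mono k hMY le_rfl).trans ?_
            rw [tsp_le]
            intro a ha b hb
            obtain ⟨c, hc, d, hd, rfl⟩ := Submodule.mem_sup.1 ha
            rw [TensorProduct.add_tmul]
            exact Submodule.add_mem _ (Submodule.mem_sup_right (hKKM (tmul_mem_tsp k hc hb)))
              (Submodule.mem_sup_left (Submodule.mem_sup_left (tmul_mem_tsp k hd hb)))
          · refine (tsp_mono k le_rfl hMY).trans ?_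
            rw [tsp_le]
            intro a ha b hb
            obtain ⟨c, hc, d, hd, rfl⟩ := Submodule.mem_sup.1 hb
            rw [TensorProduct.tmul_add]
            exact Submodule.add_mem _ (Submodule.mem_sup_right (hKKM (tmul_mem_tsp k ha hc)))
              (Submodule.mem_sup_left (Submodule.mem_sup_right (tmul_mem_tsp k ha hd)))
        exact h4 h2
      rw [GKF.aug_apply, map_sub, map_smul, Bialgebra.comul_one, Algebra.TensorProduct.one_def]
      refine Submodule.sub_mem _ h3 (Submodule.smul_mem _ _ (Submodule.mem_sup_right ?_))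
      exact tmul_mem_tsp k (hKleM i hK1) (hKleM i hK1)
    | succ j ih =>
      rw [hYs]
      exact comul_br k hEs hEK hKK hKc (hKM i) (hMK i) ih

end hopf

end Pool.Agent.GKU
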