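import Pool.Agent.Lib_helper2.GKU.U3

/-!
# The filtration by weight over a subalgebra of weight zero
-/

set_option autoImplicit false

universe u v

namespace Pool.Agent.GKU

open TensorProduct Pool.Agent.GK Pool.Agent.GKP Pool.Agent.GKF

section mod
variable (k : Type u) [Field k] {H : Type v} [Ring H] [Bialgebra k H]

/-- the augmentation ideal -/
def Kp (K : Submodule k H) : Submodule k H := K ⊓ LinearMap.ker (Coalgebra.counit (R := k) (A := H))

variable {m : ℕ} (K : Submodule k H) (x : Fin m → H) (w : Fin m → ℤ)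

/-- the filtration -/
noncomputable def Em (s : ℤ) : Submodule k H := Es k x w s * K

/-- the null part -/
noncomputable def Nm (s : ℤ) : Submodule k H := Es k x w (s - 1) * K ⊔ Es k x w s * Kp k K

theorem mem_Kp {a : H} : a ∈ Kp k K ↔ a ∈ K ∧ Coalgebra.counit (R := k) a = 0 := Iff.rfl

theorem le_Kp {K : Submodule k H} (hK1 : (1 : H) ∈ K) : K ≤ Submodule.span k {1} ⊔ Kp k K := by
  intro a ha
  have : a = Coalgebra.counit (R := k) a • (1 : H) + aug k a := by rw [aug_apply]; abel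
  rw [this]
  refine Submodule.add_mem_sup (Submodule.smul_mem _ _ (Submodule.mem_span_singleton_self 1)) ⟨?_, counit_aug k a⟩
  rw [aug_apply]
  exact K.sub_mem ha (K.smul_mem _ hK1)

theorem Kp_mul {K : Submodule k H} (hKK : K * K ≤ K) : Kp k K * K ≤ Kp k K := by
  rw [Submodule.mul_le]
  rintro a ⟨ha, ha'⟩ b hb
  refine ⟨hKK (Submodule.mul_mem_mul ha hb), ?_⟩
  rw [SetLike.mem_coe, LinearMap.mem_ker] at ha' ⊢
  rw [Bialgebra.counit_mul, ha', zero_mul]

theorem mul_Kp {K : Submodule k H} (hKK : K * K ≤ K) : K * Kp k K ≤ Kp k K := by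
  rw [Submodule.mul_le]
  rintro a ha b ⟨hb, hb'⟩
  refine ⟨hKK (Submodule.mul_mem_mul ha hb), ?_⟩
  rw [SetLike.mem_coe, LinearMap.mem_ker] at hb' ⊢
  rw [Bialgebra.counit_mul, hb', mul_zero]

variable {w} in
theorem wt_nonneg (hw : ∀ j, 1 ≤ w j) (l : List (Fin m)) : 0 ≤ wt w l ∧ (l.length : ℤ) ≤ wt w l := by
  induction l with
  | nil => simp [wt_nil]
  | cons j l ih =>
    have := hw j
    rw [wt_cons, List.length_cons]
    push_cast
    constructor <;> linarith [ih.1, ih.2]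

variable {w} in
theorem Es_neg (hw : ∀ j, 1 ≤ w j) {s : ℤ} (hs : s < 0) : Es k x w s = ⊥ := by
  rw [eq_bot_iff]
  unfold Es
  rw [Submodule.span_le]
  rintro _ ⟨l, hl, rfl⟩
  have := (wt_nonneg hw l).1
  omega

theorem Em_mono : Monotone (Em k K x w) := fun _ _ h => mul_le_mul' (Es_mono k x w h) le_rfl

theorem Es_Em (a b : ℤ) : Es k x w a * Em k K x w b ≤ Em k K x w (a + b) := by
  unfold Em
  rw [← mul_assoc]
  exact mul_le_mul' (Es_mul k x w a b) le_rfl

theorem Em_le_Nm (s : ℤ) : Em k K x w (s - 1) ≤ Nm k K x w s := le_sup_left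

theorem Nm_le_Em (s : ℤ) : Nm k K x w s ≤ Em k K x w s :=
  sup_le (Em_mono k K x w (by omega)) (mul_le_mul' le_rfl inf_le_left)

theorem Es_Nm (a b : ℤ) : Es k x w a * Nm k K x w b ≤ Nm k K x w (a + b) := by
  unfold Nm
  rw [Submodule.mul_sup]
  refine sup_le_sup ?_ ?_
  · have := Es_Em k K x w a (b - 1)
    rwa [show a + (b - 1) = a + b - 1 by ring] at this
  · rw [← mul_assoc]
    exact mul_le_mul' (Es_mul k x w a b) le_rfl

/-- all the hypotheses on the letters -/
structure LetHyp (k : Type u) [Field k] {H : Type v} [Ring H] [Bialgebra k H] {m : ℕ} (K : Submodule k H)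
    (x : Fin m → H) (w : Fin m → ℤ) : Prop where
  K1 : (1 : H) ∈ K
  KK : K * K ≤ K
  Ks : IsSubcoalgebra k K
  w1 : ∀ j, 1 ≤ w j
  eps : ∀ j, Coalgebra.counit (R := k) (x j) = 0
  com : ∀ j, ∀ a ∈ Kp k K, a * x j ∈ Nm k K x w (w j)
  del : ∀ j, Coalgebra.comul (R := k) (x j) - x j ⊗ₜ[k] (1 : H) - (1 : H) ⊗ₜ[k] x j ∈
    TN k (Em k K x w) (Nm k K x w) (w j)

variable {K x w}

theorem K_le_Em (_ : LetHyp k K x w) : K ≤ Em k K x w 0 := by
  intro a ha
  have := Submodule.mul_mem_mul (Es_one k x w) ha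
  rwa [one_mul] at this

theorem Kp_le_Nm (_ : LetHyp k K x w) : Kp k K ≤ Nm k K x w 0 := by
  intro a ha
  refine Submodule.mem_sup_right ?_
  have := Submodule.mul_mem_mul (Es_one k x w) ha
  rwa [one_mul] at this

theorem Nm_mul_K (h : LetHyp k K x w) (s : ℤ) : Nm k K x w s * K ≤ Nm k K x w s := by
  unfold Nm
  rw [Submodule.sup_mul, mul_assoc, mul_assoc]
  exact sup_le_sup (mul_le_mul' le_rfl h.KK) (mul_le_mul' le_rfl (Kp_mul k h.KK))

theorem Em_mul_K (h : LetHyp k K x w) (s : ℤ) : Em k K x w s * K ≤ Em k K x w s := by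
  unfold Em
  rw [mul_assoc]
  exact mul_le_mul' le_rfl h.KK

theorem Kp_word (h : LetHyp k K x w) (l : List (Fin m)) :
    ∀ a ∈ Kp k K, a * FreeAlgebra.lift k x (word k l) ∈ Nm k K x w (wt w l) := by
  induction l with
  | nil =>
    intro a ha
    rw [lift_nil, mul_one, wt_nil]
    exact Kp_le_Nm k h ha
  | cons j l ih =>
    intro a ha
    rw [lift_cons, ← mul_assoc, wt_cons]
    set v := FreeAlgebra.lift k x (word k l) with hv
    have hvE : v ∈ Es k x w (wt w l) := Submodule.subset_span ⟨l, le_rfl, rfl⟩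
    have hKv : ∀ b ∈ K, b * v ∈ Em k K x w (wt w l) := by
      intro b hb
      obtain ⟨c, hc, d, hd, rfl⟩ := Submodule.mem_sup.1 (le_Kp k h.K1 hb)
      obtain ⟨c, rfl⟩ := Submodule.mem_span_singleton.1 hc
      rw [add_mul, smul_mul_assoc, one_mul]
      refine Submodule.add_mem _ (Submodule.smul_mem _ _ ?_) (Nm_le_Em k K x w _ (ih d hd))
      have := Submodule.mul_mem_mul hvE h.K1
      rwa [mul_one] at this
    have h1 : Nm k K x w (w j) ≤ (Nm k K x w (w j + wt w l)).comap (LinearMap.mulRight k v) := by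
      conv_lhs => unfold Nm
      refine sup_le ?_ ?_
      · rw [Submodule.mul_le]
        intro u hu b hb
        rw [Submodule.mem_comap, LinearMap.mulRight_apply, mul_assoc]
        have h2 := Es_Em k K x w _ _ (Submodule.mul_mem_mul hu (hKv b hb))
        rw [show w j - 1 + wt w l = w j + wt w l - 1 by ring] at h2
        exact Em_le_Nm k K x w _ h2
      · rw [Submodule.mul_le]
        intro u hu b hb
        rw [Submodule.mem_comap, LinearMap.mulRight_apply, mul_assoc]
        exact Es_Nm k K x w _ _ (Submodule.mul_mem_mul hu (ih b hb))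
    exact h1 (h.com j a ha)

theorem Kp_Es (h : LetHyp k K x w) (s : ℤ) : Kp k K * Es k x w s ≤ Nm k K x w s := by
  have hm : Monotone (Nm k K x w) := fun a b hab =>
    sup_le_sup (Em_mono k K x w (by omega)) (mul_le_mul' (Es_mono k x w hab) le_rfl)
  rw [Submodule.mul_le]
  intro a ha y hy
  have h1 : Es k x w s ≤ (Nm k K x w s).comap (LinearMap.mulLeft k a) := by
    conv_lhs => unfold Es
    rw [Submodule.span_le]
    rintro _ ⟨l, hl, rfl⟩
    exact hm hl (Kp_word k h l a ha)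
  exact h1 hy

theorem Kp_Em (h : LetHyp k K x w) (s : ℤ) : Kp k K * Em k K x w s ≤ Nm k K x w s := by
  unfold Em
  rw [← mul_assoc]
  exact (mul_le_mul' (Kp_Es k h s) le_rfl).trans (Nm_mul_K k h s)

theorem K_Em (h : LetHyp k K x w) (s : ℤ) : K * Em k K x w s ≤ Em k K x w s := by
  refine (mul_le_mul' (le_Kp k h.K1) le_rfl).trans ?_
  rw [Submodule.sup_mul, ← Submodule.one_eq_span, one_mul]
  exact sup_le le_rfl ((Kp_Em k h s).trans (Nm_le_Em k K x w s))

theorem Em_Em (h : LetHyp k K x w) (a b : ℤ) : Em k K x w a * Em k K x w b ≤ Em k K x w (a + b) := by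
  conv_lhs => rw [Em, mul_assoc]
  exact (mul_le_mul' le_rfl (K_Em k h b)).trans (Es_Em k K x w a b)

theorem Nm_Em (h : LetHyp k K x w) (a b : ℤ) : Nm k K x w a * Em k K x w b ≤ Nm k K x w (a + b) := by
  conv_lhs => rw [Nm, Submodule.sup_mul, mul_assoc, mul_assoc]
  refine sup_le ?_ ?_
  · refine (mul_le_mul' le_rfl (K_Em k h b)).trans ((Es_Em k K x w _ _).trans ?_)
    rw [show a - 1 + b = a + b - 1 by ring]
    exact Em_le_Nm k K x w _
  · exact (mul_le_mul' le_rfl (Kp_Em k h b)).trans (Es_Nm k K x w _ _)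

theorem K_Nm (h : LetHyp k K x w) (s : ℤ) : K * Nm k K x w s ≤ Nm k K x w s := by
  conv_lhs => rw [Nm, Submodule.mul_sup]
  refine sup_le ((K_Em k h (s - 1)).trans (Em_le_Nm k K x w s)) ?_
  refine le_trans ?_ (le_sup_right : Es k x w s * Kp k K ≤ _)
  have h1 : K * (Es k x w s * Kp k K) ≤ Em k K x w s * Kp k K := by
    rw [← mul_assoc]
    refine mul_le_mul' ?_ le_rfl
    have h2 : K * Es k x w s ≤ K * Em k K x w s := mul_le_mul' le_rfl (le_mul_one k h.K1 _)
    exact h2.trans (K_Em k h s)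
  refine h1.trans ?_
  unfold Em
  rw [mul_assoc]
  exact mul_le_mul' le_rfl (mul_Kp k h.KK)

theorem Em_Nm (h : LetHyp k K x w) (a b : ℤ) : Em k K x w a * Nm k K x w b ≤ Nm k K x w (a + b) := by
  conv_lhs => rw [Em, mul_assoc]
  exact (mul_le_mul' le_rfl (K_Nm k h b)).trans (Es_Nm k K x w a b)

theorem tsp_le_TZ2 {E F : ℤ → Submodule k H} {A B : Submodule k H} {a b n : ℤ} (hA : A ≤ E a) (hB : B ≤ F b)
    (h : a + b = n) : tsp k A B ≤ TZ k E F n := by
  subst h
  refine (Pool.Agent.GKF.tsp_mono k hA hB).trans ?_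
  have h1 := le_iSup (fun c : ℤ => tsp k (E c) (F (a + b - c))) a
  have h2 : a + b - a = b := by ring
  simp only [h2] at h1
  exact h1

theorem TN_le_TZ (n : ℤ) : TN k (Em k K x w) (Nm k K x w) n ≤ TZ k (Em k K x w) (Em k K x w) n :=
  sup_le (TZ_mono k (Nm_le_Em k K x w) (fun _ => le_rfl) n) (TZ_mono k (fun _ => le_rfl) (Nm_le_Em k K x w) n)

theorem comul_K (h : LetHyp k K x w) : ∀ a ∈ K, Coalgebra.comul (R := k) a ∈ TZ k (Em k K x w) (Em k K x w) 0 := by
  intro a ha
  exact tsp_le_TZ2 k (K_le_Em k h) (K_le_Em k h) (add_zero 0) (h.Ks a ha)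

theorem comul_word_mod (h : LetHyp k K x w) (l : List (Fin m)) :
    Coalgebra.comul (R := k) (FreeAlgebra.lift k x (word k l)) ∈ TZ k (Em k K x w) (Em k K x w) (wt w l) := by
  have h1E : (1 : H) ∈ Em k K x w 0 := K_le_Em k h h.K1
  have hxE : ∀ j, x j ∈ Em k K x w (w j) := fun j => by
    have := Submodule.mul_mem_mul (Es_x k x w j) h.K1
    rwa [mul_one] at this
  induction l with
  | nil =>
    rw [lift_nil, Bialgebra.comul_one, Algebra.TensorProduct.one_def, wt_nil]
    exact mem_TZ k h1E h1E (add_zero 0)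
  | cons j l ih =>
    rw [lift_cons, Bialgebra.comul_mul, wt_cons]
    refine TZ_mul k (Em_Em k h) (Em_Em k h) (w j) (wt w l) (Submodule.mul_mem_mul ?_ ih)
    have h1 : Coalgebra.comul (R := k) (x j) =
        (Coalgebra.comul (R := k) (x j) - x j ⊗ₜ[k] (1 : H) - (1 : H) ⊗ₜ[k] x j) + x j ⊗ₜ[k] (1 : H) +
          (1 : H) ⊗ₜ[k] x j := by abel
    rw [h1]
    refine Submodule.add_mem _ (Submodule.add_mem _ ?_ ?_) ?_
    · exact TN_le_TZ k _ (h.del j)
    · exact mem_TZ k (hxE j) h1E (by omega)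
    · exact mem_TZ k h1E (hxE j) (by omega)

theorem comul_Es (h : LetHyp k K x w) (s : ℤ) :
    ∀ y ∈ Es k x w s, Coalgebra.comul (R := k) y ∈ TZ k (Em k K x w) (Em k K x w) s := by
  intro y hy
  have h1 : Es k x w s ≤ (TZ k (Em k K x w) (Em k K x w) s).comap (Coalgebra.comul (R := k)) := by
    conv_lhs => unfold Es
    rw [Submodule.span_le]
    rintro _ ⟨l, hl, rfl⟩
    exact TZ_mono_n k (Em_mono k K x w) hl (comul_word_mod k h l)
  exact h1 hy

theorem comul_Em (h : LetHyp k K x w) (s : ℤ) :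
    ∀ y ∈ Em k K x w s, Coalgebra.comul (R := k) y ∈ TZ k (Em k K x w) (Em k K x w) s := by
  intro y hy
  have h1 : Em k K x w s ≤ (TZ k (Em k K x w) (Em k K x w) s).comap (Coalgebra.comul (R := k)) := by
    conv_lhs => rw [Em]
    rw [Submodule.mul_le]
    intro u hu a ha
    rw [Submodule.mem_comap, Bialgebra.comul_mul]
    have := TZ_mul k (Em_Em k h) (Em_Em k h) s 0 (Submodule.mul_mem_mul (comul_Es k h s u hu) (comul_K k h a ha))
    rwa [add_zero] at this
  exact h1 hy

theorem comul_Kp (h : LetHyp k K x w) :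
    ∀ a ∈ Kp k K, Coalgebra.comul (R := k) a ∈ TN k (Em k K x w) (Nm k K x w) 0 := by
  rintro a ⟨ha, ha'⟩
  have hε : Coalgebra.counit (R := k) a = 0 := ha'
  have hap : a ∈ Kp k K := ⟨ha, ha'⟩
  have h1E : (1 : H) ∈ Em k K x w 0 := K_le_Em k h h.K1
  have h1 : Coalgebra.comul (R := k) a = TensorProduct.map (aug k) (aug k) (Coalgebra.comul (R := k) a) +
      a ⊗ₜ[k] (1 : H) + (1 : H) ⊗ₜ[k] a := by
    rw [aug_comul k hε]
    abel
  rw [h1]
  unfold TN
  have haug : ∀ b ∈ K, aug k b ∈ Kp k K := by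
    intro b hb
    refine ⟨?_, counit_aug k b⟩
    rw [aug_apply]
    exact K.sub_mem hb (K.smul_mem _ h.K1)
  refine Submodule.add_mem _ (Submodule.add_mem _ (Submodule.mem_sup_left ?_) (Submodule.mem_sup_left ?_))
    (Submodule.mem_sup_right ?_)
  · have h2 := map_tsp k haug haug (h.Ks a ha)
    exact tsp_le_TZ2 k (Kp_le_Nm k h) (inf_le_left.trans (K_le_Em k h)) (add_zero 0) h2
  · exact mem_TZ k (Kp_le_Nm k h hap) h1E (add_zero 0)
  · exact mem_TZ k h1E (Kp_le_Nm k h hap) (add_zero 0)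

theorem TZ_TN (h : LetHyp k K x w) (a b : ℤ) : TZ k (Em k K x w) (Em k K x w) a * TN k (Em k K x w) (Nm k K x w) b ≤
    TN k (Em k K x w) (Nm k K x w) (a + b) := by
  unfold TN
  rw [Submodule.mul_sup]
  exact sup_le_sup (TZ_mul k (Em_Nm k h) (Em_Em k h) a b) (TZ_mul k (Em_Em k h) (Em_Nm k h) a b)

theorem TZ_shift_mod (n : ℤ) : TZ k (Em k K x w) (Em k K x w) (n - 1) ≤ TN k (Em k K x w) (Nm k K x w) n := by
  refine le_trans ?_ (le_sup_left : TZ k (Nm k K x w) (Em k K x w) n ≤ _)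
  refine (TZ_shift k n).trans ?_
  exact TZ_mono k (fun s => Em_le_Nm k K x w s) (fun _ => le_rfl) n

/-- The hypotheses of the quotient construction. -/
theorem isFW_mod (h : LetHyp k K x w) : IsFW k (Em k K x w) (Nm k K x w) x w where
  mono := Em_mono k K x w
  one := K_le_Em k h h.K1
  mulE := Em_Em k h
  NE := Nm_le_Em k K x w
  EN := fun a b hab => (Em_mono k K x w (by omega : a ≤ b - 1)).trans (Em_le_Nm k K x w b)
  mulN := Nm_Em k h
  mulN' := Em_Nm k h
  comN := by
    intro a y hy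
    have h1 : Nm k K x w a ≤ (TN k (Em k K x w) (Nm k K x w) a).comap (Coalgebra.comul (R := k)) := by
      conv_lhs => unfold Nm
      refine sup_le ?_ ?_
      · intro y hy
        exact TZ_shift_mod k a (comul_Em k h (a - 1) y hy)
      · rw [Submodule.mul_le]
        intro u hu b hb
        rw [Submodule.mem_comap, Bialgebra.comul_mul]
        have := TZ_TN k h a 0 (Submodule.mul_mem_mul (comul_Es k h a u hu) (comul_Kp k h b hb))
        rwa [add_zero] at this
    exact h1 hy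
  xE := fun j => by
    have := Submodule.mul_mem_mul (Es_x k x w j) h.K1
    rwa [mul_one] at this
  xP := h.del
  x0 := h.eps
  N0 := by
    intro y hy
    have h1 : Nm k K x w 0 ≤ LinearMap.ker (Coalgebra.counit (R := k) (A := H)) := by
      unfold Nm
      rw [Es_neg k x h.w1 (by omega : (0 : ℤ) - 1 < 0), Submodule.bot_mul, bot_sup_eq, Submodule.mul_le]
      rintro u _ b ⟨_, hb⟩
      rw [SetLike.mem_coe, LinearMap.mem_ker] at hb
      rw [LinearMap.mem_ker, Bialgebra.counit_mul, hb, mul_zero]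
    exact h1 hy

end mod

end Pool.Agent.GKU
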