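import Pool.Agent.Lib_helper2.GKU.U4

/-!
# Letters and weights from the levels
-/

set_option autoImplicit false

universe u v

namespace Pool.Agent.GKU

open TensorProduct Pool.Agent.GK Pool.Agent.GKP Pool.Agent.GKF

section mod
variable (k : Type u) [Field k] {H : Type v} [Ring H] [Bialgebra k H]

/-- weight bound of level `i` -/
def Wt (n i : ℕ) : ℤ := if i = 0 then 0 else (n + 1) * 3 ^ i

theorem Wt_zero (n : ℕ) : Wt n 0 = 0 := by simp [Wt]

theorem Wt_succ (n i : ℕ) : Wt n (i + 1) = (n + 1) * 3 ^ (i + 1) := by simp [Wt]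

theorem Wt_double (n i j : ℕ) (hj : j ≤ n) : 2 * Wt n i ≤ (n + 1) * 3 ^ (i + 1) - j - 1 := by
  have h3 : (1 : ℤ) ≤ 3 ^ i := one_le_pow₀ (by norm_num)
  have hn : (0 : ℤ) ≤ n := Int.natCast_nonneg n
  have hj' : (j : ℤ) ≤ n := by exact_mod_cast hj
  rcases Nat.eq_zero_or_pos i with rfl | hi
  · rw [Wt_zero, zero_add, pow_one]
    linarith
  · have : Wt n i = (n + 1) * 3 ^ i := by simp [Wt]; omega
    rw [this, pow_succ]
    nlinarith [mul_nonneg hn (by linarith : (0 : ℤ) ≤ 3 ^ i - 1)]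

theorem letters_of_lev {K C : Submodule k H} {n : ℕ} {M : ℕ → Submodule k H} {Y : ℕ → ℕ → Submodule k H} {r : ℕ}
    (hL : Lev k K C n M Y r) (hK1 : (1 : H) ∈ K) (hKK : K * K ≤ K) (hKs : IsSubcoalgebra k K) :
    ∃ (m : ℕ) (x : Fin m → H) (w : Fin m → ℤ) (W : ℕ), LetHyp k K x w ∧ (∀ j, w j ≤ W) ∧
      (∀ j, x j ∈ C ^ (n + 1)) ∧ C ≤ Em k K x w W := by
  obtain ⟨m, x, lv, hlv, hsp⟩ := exists_letters k (r * (n + 1) + n) (fun t => Y (t / (n + 1)) (t % (n + 1)))
    (fun t => hL.fg _ _)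
  set w : Fin m → ℤ := fun l => (n + 1) * 3 ^ (lv l / (n + 1) + 1) - ((lv l % (n + 1) : ℕ) : ℤ) with hw
  have hn' : 0 < n + 1 := Nat.succ_pos n
  have hmod : ∀ t : ℕ, t % (n + 1) ≤ n := fun t => Nat.lt_succ_iff.1 (Nat.mod_lt t hn')
  -- the levels
  have hY : ∀ i ≤ r, ∀ j ≤ n, Y i j ≤ Es k x w ((n + 1) * 3 ^ (i + 1) - j) := by
    intro i hi j hj
    have hdiv : (i * (n + 1) + j) / (n + 1) = i := by
      rw [Nat.mul_comm, Nat.mul_add_div hn', Nat.div_eq_of_lt (by omega), add_zero]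
    have hmd : (i * (n + 1) + j) % (n + 1) = j := by
      rw [Nat.mul_comm, Nat.mul_add_mod, Nat.mod_eq_of_lt (by omega)]
    have h1 := hsp (i * (n + 1) + j) (by nlinarith)
    simp only [hdiv, hmd] at h1
    refine h1.trans ?_
    rw [Submodule.span_le]
    rintro _ ⟨l, hl, rfl⟩
    have h2 : w l = (n + 1) * 3 ^ (i + 1) - j := by
      rw [hw]
      simp only [hl, hdiv, hmd]
    rw [← h2]
    exact Es_x k x w l
  have hKE : K ≤ Em k K x w 0 := by
    intro a ha
    have := Submodule.mul_mem_mul (Es_one k x w) ha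
    rwa [one_mul] at this
  have hKpN : Kp k K ≤ Nm k K x w 0 := by
    intro a ha
    refine Submodule.mem_sup_right ?_
    have := Submodule.mul_mem_mul (Es_one k x w) ha
    rwa [one_mul] at this
  have hWt0 : ∀ i, 0 ≤ Wt n i := by
    intro i
    unfold Wt
    split_ifs
    · exact le_rfl
    · positivity
  have hM : ∀ i ≤ r + 1, M i ≤ Em k K x w (Wt n i) := by
    intro i hi
    rcases i with _ | i
    · rw [Wt_zero]
      exact hL.M0.trans hKE
    · rw [Wt_succ]
      refine (hL.Ms i).trans (sup_le ?_ ?_)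
      · exact hKE.trans (Em_mono k K x w (by positivity))
      · have := hY i (by omega) 0 (Nat.zero_le n)
        rw [Nat.cast_zero, sub_zero] at this
        exact mul_le_mul' this le_rfl
  have hlvr : ∀ l, lv l / (n + 1) ≤ r := by
    intro l
    have h1 := (hlv l).1
    have h2 : lv l < (r + 1) * (n + 1) := by nlinarith
    exact Nat.lt_succ_iff.1 ((Nat.div_lt_iff_lt_mul hn').2 h2)
  refine ⟨m, x, w, (n + 1) * 3 ^ (r + 1), ⟨hK1, hKK, hKs, ?_, ?_, ?_, ?_⟩, ?_, ?_, ?_⟩
  · intro l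
    have h1 : ((lv l % (n + 1) : ℕ) : ℤ) ≤ n := by exact_mod_cast hmod (lv l)
    have h2 : (1 : ℤ) ≤ 3 ^ (lv l / (n + 1) + 1) := one_le_pow₀ (by norm_num)
    have h3 : (0 : ℤ) ≤ n := Int.natCast_nonneg n
    show 1 ≤ (n + 1) * 3 ^ (lv l / (n + 1) + 1) - ((lv l % (n + 1) : ℕ) : ℤ)
    nlinarith
  · intro l
    exact hL.eps _ _ _ (hlv l).2
  · intro l a ha
    set i := lv l / (n + 1) with hi
    set j := lv l % (n + 1) with hj
    have hxl : x l ∈ Y i j := (hlv l).2
    have h1 : a * x l = (a * x l - x l * a) + x l * a := by abel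
    rw [h1]
    have hwl : w l = (n + 1) * 3 ^ (i + 1) - (j : ℤ) := rfl
    rw [Nm, add_comm]
    rw [add_comm]
    refine Submodule.add_mem_sup ?_ (Submodule.mul_mem_mul (Es_x k x w l) ha)
    have h2 := hL.com i j a ha.1 (x l) hxl
    rcases Nat.lt_or_ge j n with hjn | hjn
    · have h3 := hY i (hlvr l) (j + 1) hjn
      have h4 : w l - 1 = (n + 1) * 3 ^ (i + 1) - ((j + 1 : ℕ) : ℤ) := by
        rw [hwl]; push_cast; ring
      rw [h4]
      exact mul_le_mul' h3 le_rfl h2
    · have hjn' : j = n := le_antisymm (hmod _) hjn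
      rw [hjn', hL.bot i, Submodule.mem_bot] at hxl
      rw [hxl, mul_zero, zero_mul, sub_zero]
      exact Submodule.zero_mem _
  · intro l
    set i := lv l / (n + 1) with hi
    set j := lv l % (n + 1) with hj
    have hxl : x l ∈ Y i j := (hlv l).2
    have hwl : w l = (n + 1) * 3 ^ (i + 1) - (j : ℤ) := rfl
    have hYw : Y i j * K ≤ Em k K x w (w l) := by
      rw [hwl]
      exact mul_le_mul' (hY i (hlvr l) j (hmod _)) le_rfl
    have hxε : Coalgebra.counit (R := k) (x l) = 0 := hL.eps i j _ hxl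
    rw [← aug_comul k hxε]
    have haugY : ∀ y ∈ Y i j * K, aug k y ∈ Y i j * K := by
      intro y hy
      have : Coalgebra.counit (R := k) y = 0 := by
        induction hy using Submodule.mul_induction_on' with
        | mem_mul_mem z hz b hb => rw [Bialgebra.counit_mul, hL.eps i j z hz, zero_mul]
        | add y _ y' _ ih ih' => rw [map_add, ih, ih', add_zero]
      rw [aug_eq k this]
      exact hy
    have haugK : ∀ b ∈ K, aug k b ∈ Kp k K := by
      intro b hb
      refine ⟨?_, counit_aug k b⟩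
      rw [aug_apply]
      exact K.sub_mem hb (K.smul_mem _ hK1)
    have haugM : ∀ b ∈ M i, aug k b ∈ M i := by
      intro b hb
      rw [aug_apply]
      exact (M i).sub_mem hb ((M i).smul_mem _ (hL.MK i hK1))
    obtain ⟨t, ht, t3, ht3, h2⟩ := Submodule.mem_sup.1 (hL.comul i j (x l) hxl)
    obtain ⟨t1, ht1, t2, ht2, h3⟩ := Submodule.mem_sup.1 ht
    rw [← h2, ← h3, map_add, map_add]
    refine Submodule.add_mem _ (Submodule.add_mem _ ?_ ?_) ?_
    · refine Submodule.mem_sup_right ?_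
      exact tsp_le_TZ2 k hYw hKpN (add_zero _) (map_tsp k haugY haugK ht1)
    · refine Submodule.mem_sup_left ?_
      exact tsp_le_TZ2 k hKpN hYw (zero_add _) (map_tsp k haugK haugY ht2)
    · have h4 := tsp_le_TZ k (Em_mono k K x w) (hM i (by have := hlvr l; omega)) (hM i (by have := hlvr l; omega))
        (n := w l - 1) (by
          have := Wt_double n i j (hmod _)
          rw [hwl]
          linarith) (map_tsp k haugM haugM ht3)
      refine Submodule.mem_sup_left ?_
      exact TZ_mono k (fun s => Em_le_Nm k K x w s) (fun _ => le_rfl) _ (TZ_shift k (w l) h4)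
  · intro l
    show (n + 1) * 3 ^ (lv l / (n + 1) + 1) - ((lv l % (n + 1) : ℕ) : ℤ) ≤ (((n + 1) * 3 ^ (r + 1) : ℕ) : ℤ)
    push_cast
    have h1 : (3 : ℤ) ^ (lv l / (n + 1) + 1) ≤ 3 ^ (r + 1) :=
      pow_le_pow_right₀ (by norm_num) (by have := hlvr l; omega)
    have h2 : (0 : ℤ) ≤ (lv l : ℤ) % (n + 1) := Int.emod_nonneg _ (by positivity)
    have h3 : (0 : ℤ) ≤ n := Int.natCast_nonneg n
    nlinarith
  · intro l
    exact hL.pow _ _ (hlv l).2
  · refine hL.CM.trans ((hM r (by omega)).trans (Em_mono k K x w ?_))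
    have h3 : (0 : ℤ) ≤ n := Int.natCast_nonneg n
    rcases Nat.eq_zero_or_pos r with h0 | h0
    · rw [h0, Wt_zero]
      positivity
    · have : Wt n r = (n + 1) * 3 ^ r := by simp [Wt]; omega
      rw [this]
      push_cast
      refine mul_le_mul_of_nonneg_left ?_ (by linarith)
      exact pow_le_pow_right₀ (by norm_num) (by omega)

end mod

end Pool.Agent.GKU
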