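import Pool.Agent.Lib_helper2.GKU.U5
import Pool.Agent.Lib_helper54.GKP.FL
import Pool.Agent.Lib_helper54.GKP.FM2
import Pool.Agent.Lib_helper54.GKP.FM3
import Pool.Agent.Lib_helper54.GKP.ND

/-!
# The rank of the filtration over the coradical
-/

set_option autoImplicit false

universe u v

namespace Pool.Agent.GKU

open TensorProduct Pool.Agent.GK Pool.Agent.GKP Pool.Agent.GKF

section app
variable (k : Type u) [Field k] {H : Type v} [Ring H] [Bialgebra k H]

/-- two triangular families, the second over the module generated by the first -/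
theorem fam_append {K N N' : Submodule k H} {a b : ℕ} {e : Fin a → H} {f : Fin b → H} (he : Fam k K N e)
    (hN' : N' = N ⊔ Submodule.span k (Set.range e) * K) (hf : Fam k K N' f) : Fam k K N (Fin.append e f) := by
  have h1 : ∀ i : Fin a, Nl k K N (Fin.append e f) (Fin.castAdd b i) = Nl k K N e i := by
    intro i
    unfold Nl
    congr 3
    ext y
    constructor
    · rintro ⟨l, hl, rfl⟩
      rw [Set.mem_ofPred_eq, Fin.lt_def, Fin.val_castAdd] at hl
      refine ⟨⟨l.1, by omega⟩, ?_, ?_⟩
      · rw [Set.mem_ofPred_eq, Fin.lt_def]; exact hl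
      · have : l = Fin.castAdd b ⟨l.1, by omega⟩ := Fin.ext rfl
        conv_rhs => rw [this, Fin.append_left]
    · rintro ⟨l, hl, rfl⟩
      refine ⟨Fin.castAdd b l, ?_, Fin.append_left _ _ _⟩
      rw [Set.mem_ofPred_eq, Fin.lt_def, Fin.val_castAdd, Fin.val_castAdd]
      exact hl
  have h2 : ∀ i : Fin b, Nl k K N (Fin.append e f) (Fin.natAdd a i) = Nl k K N' f i := by
    intro i
    unfold Nl
    rw [hN', sup_assoc, ← Submodule.sup_mul, ← Submodule.span_union]
    congr 3
    ext y
    constructor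
    · rintro ⟨l, hl, rfl⟩
      rw [Set.mem_ofPred_eq, Fin.lt_def, Fin.val_natAdd] at hl
      by_cases hla : l.1 < a
      · left
        refine ⟨⟨l.1, hla⟩, ?_⟩
        have : l = Fin.castAdd b ⟨l.1, hla⟩ := Fin.ext rfl
        conv_rhs => rw [this, Fin.append_left]
      · right
        have hlb : l.1 - a < b := by omega
        refine ⟨⟨l.1 - a, hlb⟩, ?_, ?_⟩
        · rw [Set.mem_ofPred_eq, Fin.lt_def]
          show l.1 - a < i.1
          omega
        · have : l = Fin.natAdd a ⟨l.1 - a, hlb⟩ := Fin.ext (by simp; omega)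
          conv_rhs => rw [this, Fin.append_right]
    · rintro (⟨l, rfl⟩ | ⟨l, hl, rfl⟩)
      · refine ⟨Fin.castAdd b l, ?_, Fin.append_left _ _ _⟩
        rw [Set.mem_ofPred_eq, Fin.lt_def, Fin.val_castAdd, Fin.val_natAdd]
        omega
      · refine ⟨Fin.natAdd a l, ?_, Fin.append_right _ _ _⟩
        rw [Set.mem_ofPred_eq, Fin.lt_def, Fin.val_natAdd, Fin.val_natAdd]
        have hl' : l.1 < i.1 := hl
        omega
  refine ⟨he.base, he.baseM, fun i => ?_, fun i => ?_⟩
  · refine Fin.addCases (fun i => ?_) (fun i => ?_) i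
    · rw [h1, Fin.append_left]; exact he.coi i
    · rw [h2, Fin.append_right]; exact hf.coi i
  · refine Fin.addCases (fun i => ?_) (fun i => ?_) i
    · rw [h1, Fin.append_left]; exact he.indep i
    · rw [h2, Fin.append_right]; exact hf.indep i

theorem range_append {a b : ℕ} (e : Fin a → H) (f : Fin b → H) :
    Set.range (Fin.append e f) = Set.range e ∪ Set.range f := by
  ext y
  constructor
  · rintro ⟨i, rfl⟩
    refine Fin.addCases (fun i => ?_) (fun i => ?_) i
    · left; exact ⟨i, (Fin.append_left _ _ _).symm⟩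
    · right; exact ⟨i, (Fin.append_right _ _ _).symm⟩
  · rintro (⟨i, rfl⟩ | ⟨i, rfl⟩)
    · exact ⟨Fin.castAdd b i, Fin.append_left _ _ _⟩
    · exact ⟨Fin.natAdd a i, Fin.append_right _ _ _⟩

variable {m : ℕ} {K : Submodule k H} {x : Fin m → H} {w : Fin m → ℤ}

theorem Em_neg (h : LetHyp k K x w) {s : ℤ} (hs : s < 0) : Em k K x w s = ⊥ := by
  rw [Em, Es_neg k x h.w1 hs, Submodule.bot_mul]

theorem Em_sub (h : LetHyp k K x w) (s : ℤ) : IsSubcoalgebra k (Em k K x w s) := by
  intro y hy
  have h1 : TZ k (Em k K x w) (Em k K x w) s ≤ tsp k (Em k K x w s) (Em k K x w s) := by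
    unfold TZ
    refine iSup_le fun a => ?_
    rcases lt_or_ge a 0 with ha | ha
    · rw [Em_neg k h ha]
      rw [tsp_le]
      intro b hb c _
      rw [Submodule.mem_bot] at hb
      rw [hb, TensorProduct.zero_tmul]
      exact Submodule.zero_mem _
    · rcases lt_or_ge (s - a) 0 with hb | hb
      · rw [Em_neg k h hb]
        rw [tsp_le]
        intro b _ c hc
        rw [Submodule.mem_bot] at hc
        rw [hc, TensorProduct.tmul_zero]
        exact Submodule.zero_mem _
      · exact Pool.Agent.GKF.tsp_mono k (Em_mono k K x w (by omega)) (Em_mono k K x w (by omega))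
  exact h1 (comul_Em k h s y hy)

end app

section rank
variable (k : Type u) [Field k] {H : Type v} [Ring H] [HopfAlgebra k H]

theorem ant_pow' {E : Submodule k H} (hE : ∀ x ∈ E, HopfAlgebra.antipode k x ∈ E)
    (n : ℕ) : ∀ x ∈ E ^ n, HopfAlgebra.antipode k x ∈ E ^ n := by
  induction n with
  | zero =>
    intro x hx
    rw [pow_zero] at hx ⊢
    obtain ⟨c, rfl⟩ := Submodule.mem_one.1 hx
    rw [Algebra.algebraMap_eq_smul_one, map_smul, HopfAlgebra.antipode_one]
    exact Submodule.mem_one.2 ⟨c, Algebra.algebraMap_eq_smul_one c⟩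
  | succ n ih =>
    intro x hx
    rw [pow_succ] at hx
    refine Submodule.mul_induction_on hx ?_ ?_
    · intro a ha b hb
      rw [HopfAlgebra.antipode_mul_antidistrib, pow_succ']
      exact Submodule.mul_mem_mul (hE b hb) (ih a ha)
    · intro a b ha hb
      rw [map_add]
      exact Submodule.add_mem _ ha hb

variable {m : ℕ} {x : Fin m → H} {w : Fin m → ℤ}

theorem Es_le_powC {C : Submodule k H} (h1 : (1 : H) ∈ C) {c : ℕ} (hx : ∀ j, x j ∈ C ^ c) (hw : ∀ j, 1 ≤ w j)
    (s : ℕ) : Es k x w s ≤ C ^ (c * s) := by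
  unfold Es
  rw [Submodule.span_le]
  rintro _ ⟨l, hl, rfl⟩
  have h2 : FreeAlgebra.lift k x (word k l) ∈ (C ^ c) ^ l.length := by
    clear hl
    induction l with
    | nil =>
      rw [lift_nil, List.length_nil, pow_zero]
      exact Submodule.one_le.1 le_rfl
    | cons j l ih =>
      rw [lift_cons, List.length_cons, pow_succ']
      exact Submodule.mul_mem_mul (hx j) ih
  rw [← pow_mul] at h2
  refine pow_le_pow_right' (Submodule.one_le.2 h1) ?_ h2
  have h3 := (wt_nonneg hw l).2
  have h4 : l.length ≤ s := by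
    have : (l.length : ℤ) ≤ s := h3.trans hl
    exact_mod_cast this
  exact Nat.mul_le_mul_left c h4

/-- one level -/
theorem level_fam (hA : IsHopfSubalgebra k (coradical k H)) {C : Submodule k H} (hC : Pre k C)
    (h : LetHyp k (Kc k (C ⊓ coradical k H)) x w) {c : ℕ} (hx : ∀ j, x j ∈ C ^ c) (s : ℕ) :
    ∃ (r : ℕ) (e : Fin r → H), Fam k (Kc k (C ⊓ coradical k H)) (Em k (Kc k (C ⊓ coradical k H)) x w ((s : ℤ) - 1)) e ∧
      (∀ i, e i ∈ C ^ (2 * c * s) ∧ e i ∈ Em k (Kc k (C ⊓ coradical k H)) x w s) ∧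
      Em k (Kc k (C ⊓ coradical k H)) x w s =
        Em k (Kc k (C ⊓ coradical k H)) x w ((s : ℤ) - 1) ⊔ Submodule.span k (Set.range e) *
          Kc k (C ⊓ coradical k H) := by
  have hc := ctx_of_pre k hA hC
  set K : Submodule k H := Kc k (C ⊓ coradical k H) with hK
  set M : Submodule k H := Em k K x w s ⊓ C ^ (c * s) with hM
  have hKH : IsHopfSubalgebra k K := hc.hK
  have hE1 : (1 : H) ∈ C ⊓ coradical k H := ⟨hC.one, hA.one_mem⟩
  have hMf : M.FG := by
    have := Module.Finite.iff_fg.2 (hC.fg.pow (c * s))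
    have := Submodule.finiteDimensional_of_le (inf_le_right : M ≤ C ^ (c * s))
    exact Module.Finite.iff_fg.1 this
  have hCp : IsSubcoalgebra k (C ^ (c * s)) := GKC.sub_pow hC.sub _
  have hMs : IsSubcoalgebra k M := cs_inf k (Em_sub k h s) hCp
  have hcorK : C ^ (c * s) ⊓ coradical k H ≤ (C ⊓ coradical k H) ^ (c * s) := nd_pow k hC.fg hC.sub _
  have hKn : ∀ n, (C ⊓ coradical k H) ^ n ≤ K := (kc_facts k hE1).2.2.2.1
  have hsimple : ∀ D : Submodule k H, IsSimpleSubcoalgebra k D → D ≤ M → D ≤ K := by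
    intro D hD hDM
    exact (le_inf (hDM.trans inf_le_right) (le_sSup hD)).trans (hcorK.trans (hKn _))
  obtain ⟨r, e, hF, he, hcov⟩ := flag_exists k hKH (LS_of_sub k (Em_sub k h ((s : ℤ) - 1)))
    (Em_mul_K k h _) hMf hMs hsimple
  have hEsM : Es k x w s ≤ M := le_inf (le_mul_one k hKH.one_mem _) (Es_le_powC k hC.one hx h.w1 s)
  have heC : ∀ i, e i ∈ C ^ (2 * c * s) := by
    intro i
    have h2 : (M ⊓ K).map (HopfAlgebra.antipode k) ≤ C ^ (c * s) := by
      rw [Submodule.map_le_iff_le_comap]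
      rintro y ⟨hyM, hyK⟩
      have h3 : y ∈ (C ⊓ coradical k H) ^ (c * s) := hcorK ⟨hyM.2, hc.KA hyK⟩
      have h5 : (C ⊓ coradical k H) ^ (c * s) ≤ C ^ (c * s) := pow_le_pow_left' inf_le_left _
      exact h5 (ant_pow' k hC.ant _ y h3)
    have h4 := mul_le_mul' (inf_le_right : M ≤ C ^ (c * s)) h2 (he i)
    rwa [← pow_add, show c * s + c * s = 2 * c * s by ring] at h4
  have heE : ∀ i, e i ∈ Em k K x w s := by
    intro i
    have h2 : (M ⊓ K).map (HopfAlgebra.antipode k) ≤ K := by
      rw [Submodule.map_le_iff_le_comap]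
      rintro y ⟨_, hyK⟩
      exact hKH.antipode_mem y hyK
    exact Em_mul_K k h s (mul_le_mul' inf_le_left h2 (he i))
  refine ⟨r, e, hF, fun i => ⟨heC i, heE i⟩, le_antisymm ?_ ?_⟩
  · have h2 : Em k K x w s ≤ M * K := mul_le_mul' hEsM le_rfl
    refine h2.trans ((mul_le_mul' hcov le_rfl).trans ?_)
    rw [Submodule.sup_mul, mul_assoc]
    exact sup_le_sup (Em_mul_K k h _) (mul_le_mul' le_rfl hKH.mul_le)
  · refine sup_le (Em_mono k K x w (by omega)) ?_
    refine (mul_le_mul' (Submodule.span_le.2 ?_) le_rfl).trans (Em_mul_K k h s)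
    rintro _ ⟨i, rfl⟩
    exact heE i

/-- the dimension of the graded piece is the rank -/
theorem level_rank {K : Submodule k H} (hK : IsHopfSubalgebra k K) (h : LetHyp k K x w) (s : ℤ) {r : ℕ}
    {e : Fin r → H} (hF : Fam k K (Em k K x w (s - 1)) e) (he : ∀ i, e i ∈ Em k K x w s)
    (hcov : Em k K x w s = Em k K x w (s - 1) ⊔ Submodule.span k (Set.range e) * K) :
    Module.finrank k ↥((T k w s).map ((Nm k K x w s).mkQ ∘ₗ (FreeAlgebra.lift k x).toLinearMap)) = r := by
  set N := Nm k K x w s with hN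
  -- `Em s ≤ span e ⊔ N`
  have hEmN : Em k K x w (s - 1) ≤ N := Em_le_Nm k K x w s
  have hEKp : Em k K x w s * Kp k K ≤ N := by
    refine le_trans ?_ (le_sup_right : Es k x w s * Kp k K ≤ _)
    unfold Em
    rw [mul_assoc]
    exact mul_le_mul' le_rfl (mul_Kp k hK.mul_le)
  have hspE : Submodule.span k (Set.range e) ≤ Em k K x w s := by
    rw [Submodule.span_le]
    rintro _ ⟨i, rfl⟩
    exact he i
  have hle1 : Em k K x w s ≤ Submodule.span k (Set.range e) ⊔ N := by
    rw [hcov]
    refine sup_le (hEmN.trans le_sup_right) ?_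
    refine (mul_le_mul' le_rfl (le_Kp k hK.one_mem)).trans ?_
    rw [Submodule.mul_sup, ← Submodule.one_eq_span, mul_one]
    exact sup_le_sup le_rfl ((mul_le_mul' hspE le_rfl).trans hEKp)
  have hle2 : Em k K x w s ≤ (T k w s).map (FreeAlgebra.lift k x).toLinearMap ⊔ N := by
    have h1 : Em k K x w s ≤ Es k x w s ⊔ N := by
      conv_lhs => unfold Em
      refine (mul_le_mul' le_rfl (le_Kp k hK.one_mem)).trans ?_
      rw [Submodule.mul_sup, ← Submodule.one_eq_span, mul_one]
      exact sup_le_sup le_rfl le_sup_right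
    refine h1.trans (sup_le ?_ le_sup_right)
    rw [Es_succ k x w s]
    refine sup_le ?_ le_sup_left
    refine le_trans ?_ le_sup_right
    exact (le_mul_one k hK.one_mem _).trans hEmN
  have hTE : (T k w s).map (FreeAlgebra.lift k x).toLinearMap ≤ Em k K x w s := by
    refine le_trans ?_ (le_mul_one k hK.one_mem _)
    rw [Es_succ k x w s]
    exact le_sup_right
  have hker : ∀ P : Submodule k H, (P ⊔ N).map N.mkQ = P.map N.mkQ := by
    intro P
    rw [Submodule.map_sup, Submodule.mkQ_map_self, sup_bot_eq]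
  have heq : (T k w s).map (N.mkQ ∘ₗ (FreeAlgebra.lift k x).toLinearMap) =
      Submodule.span k (Set.range fun i => N.mkQ (e i)) := by
    have h1 : Submodule.span k (Set.range fun i => N.mkQ (e i)) = (Submodule.span k (Set.range e)).map N.mkQ := by
      rw [Submodule.map_span, ← Set.range_comp]
      rfl
    rw [h1, Submodule.map_comp]
    apply le_antisymm
    · rw [← hker (Submodule.span k (Set.range e))]
      exact Submodule.map_mono (hTE.trans hle1)
    · rw [← hker ((T k w s).map (FreeAlgebra.lift k x).toLinearMap)]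
      exact Submodule.map_mono (hspE.trans hle2)
  rw [heq]
  have hli : LinearIndependent k (fun i => N.mkQ (e i)) := by
    rw [Fintype.linearIndependent_iff]
    intro g hg
    have h1 : ∑ i, g i • e i ∈ N := by
      rw [← Submodule.Quotient.mk_eq_zero, ← Submodule.mkQ_apply, map_sum]
      rw [← hg]
      exact Finset.sum_congr rfl fun i _ => map_smul _ _ _
    -- `N ≤ Em (s-1) ⊔ span e * Kp`
    have h2 : N ≤ Em k K x w (s - 1) ⊔ Submodule.span k (Set.range e) * Kp k K := by
      refine sup_le le_sup_left ?_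
      have h3 : Es k x w s ≤ Em k K x w s := le_mul_one k hK.one_mem _
      refine (mul_le_mul' (h3.trans (le_of_eq hcov)) le_rfl).trans ?_
      rw [Submodule.sup_mul, mul_assoc]
      refine sup_le_sup ?_ (mul_le_mul' le_rfl (mul_Kp k hK.mul_le))
      exact (mul_le_mul' le_rfl inf_le_left).trans (Em_mul_K k h _)
    obtain ⟨y, hy, z, hz, hyz⟩ := Submodule.mem_sup.1 (h2 h1)
    have h4 : ∃ a : Fin r → H, (∀ i, a i ∈ Kp k K) ∧ z = ∑ i, e i * a i := by
      clear hyz
      induction hz using Submodule.mul_induction_on' with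
      | mem_mul_mem u hu b hb =>
        obtain ⟨c, rfl⟩ := (Submodule.mem_span_range_iff_exists_fun k).1 hu
        refine ⟨fun i => c i • b, fun i => Submodule.smul_mem _ _ hb, ?_⟩
        rw [Finset.sum_mul]
        exact Finset.sum_congr rfl fun i _ => by rw [smul_mul_assoc, mul_smul_comm]
      | add u _ v _ ihu ihv =>
        obtain ⟨a, ha, rfl⟩ := ihu
        obtain ⟨b, hb, rfl⟩ := ihv
        refine ⟨fun i => a i + b i, fun i => Submodule.add_mem _ (ha i) (hb i), ?_⟩
        rw [← Finset.sum_add_distrib]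
        exact Finset.sum_congr rfl fun i _ => (mul_add _ _ _).symm
    obtain ⟨a, ha, rfl⟩ := h4
    have h5 : ∑ i, e i * (g i • (1 : H) - a i) ∈ Em k K x w (s - 1) := by
      have : ∑ i, e i * (g i • (1 : H) - a i) = y := by
        simp only [mul_sub, mul_smul_comm, mul_one, Finset.sum_sub_distrib]
        rw [← hyz]
        abel
      rw [this]
      exact hy
    have h6 := fam_free k hK hF (fun i => g i • (1 : H) - a i) (fun i =>
      Submodule.sub_mem _ (Submodule.smul_mem _ _ hK.one_mem) (ha i).1) h5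
    intro i
    have h7 := congrArg (Coalgebra.counit (R := k) (A := H)) (h6 i)
    rw [map_sub, map_smul, Bialgebra.counit_one, map_zero] at h7
    have h8 : Coalgebra.counit (R := k) (a i) = 0 := (ha i).2
    rw [h8, sub_zero, smul_eq_mul, mul_one] at h7
    exact h7
  rw [finrank_span_eq_card hli, Fintype.card_fin]

end rank

end Pool.Agent.GKU
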