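import Pool.Agent.Lib_helper2.GKU.U6

/-!
# Counting: the growth over the coradical
-/

set_option autoImplicit false

universe u v

namespace Pool.Agent.GKU

open TensorProduct Pool.Agent.GK Pool.Agent.GKP Pool.Agent.GKF

section rank
variable (k : Type u) [Field k] {H : Type v} [Ring H] [HopfAlgebra k H]
variable {m : ℕ} {x : Fin m → H} {w : Fin m → ℤ}

/-- the dimension of the graded piece in the quotient -/
theorem piece_eq {K : Submodule k H} (h : LetHyp k K x w) {B : Type u} [Ring B] [Algebra k B]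
    (q : FreeAlgebra k (Fin m) →ₐ[k] B) (hq : ∀ f, q f = 0 ↔ Null k (Nm k K x w) x w f) (s : ℤ) :
    Module.finrank k ↥((T k w s).map ((Es k (fun j => q (FreeAlgebra.ι k j)) w (s - 1)).mkQ ∘ₗ
      (FreeAlgebra.lift k (fun j => q (FreeAlgebra.ι k j))).toLinearMap)) =
    Module.finrank k ↥((T k w s).map ((Nm k K x w s).mkQ ∘ₗ (FreeAlgebra.lift k x).toLinearMap)) := by
  refine finrank_map_eq_of_ker _ _ _ fun f hf => ?_
  have _ := h
  rw [LinearMap.comp_apply, LinearMap.comp_apply, Submodule.mkQ_apply, Submodule.mkQ_apply,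
    Submodule.Quotient.mk_eq_zero, Submodule.Quotient.mk_eq_zero, AlgHom.toLinearMap_apply,
    AlgHom.toLinearMap_apply, lift_q]
  constructor
  · intro h1
    rw [Es_eq_map, lift_q] at h1
    obtain ⟨g, hg, hgf⟩ := h1
    have h2 : q (f - g) = 0 := by
      rw [map_sub, sub_eq_zero]
      exact hgf.symm
    have h3 : FreeAlgebra.lift k x (comp k w s (f - g)) ∈ Nm k K x w s := (hq _).1 h2 s
    have h4 : comp k w s g = 0 := by
      have : (Submodule.span k {f | ∃ l : List (Fin m), wt w l ≤ s - 1 ∧ f = word k l}) ≤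
          LinearMap.ker (comp k w s) := by
        rw [Submodule.span_le]
        rintro _ ⟨l, hl, rfl⟩
        rw [SetLike.mem_coe, LinearMap.mem_ker, comp_word, if_neg (by omega)]
      exact this hg
    rwa [map_sub, h4, sub_zero, comp_of_mem k w hf s, if_pos rfl] at h3
  · intro h1
    have h2 : q f = 0 := by
      rw [hq]
      intro r
      rw [comp_of_mem k w hf r]
      split_ifs with hr
      · rw [← hr]; exact h1
      · rw [map_zero]; exact Submodule.zero_mem _
    rw [h2]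
    exact Submodule.zero_mem _

theorem Es_le_Dg {B : Type u} [Ring B] [Algebra k B] (c : Fin m → B) (hw : ∀ j, 1 ≤ w j) (s : ℕ) :
    Es k c w s ≤ Dg k c ^ s := by
  refine Es_le_pow k c w fun l hl _ => ?_
  have h1 := (wt_nonneg hw l).2
  have : (l.length : ℤ) ≤ s := h1.trans hl
  exact_mod_cast this

theorem Es_fg' {B : Type u} [Ring B] [Algebra k B] (c : Fin m → B) (hw : ∀ j, 1 ≤ w j) (s : ℤ) :
    (Es k c w s).FG := by
  have h1 : Es k c w s ≤ Dg k c ^ s.toNat :=
    (Es_mono k c w (Int.self_le_toNat s)).trans (Es_le_Dg k c hw s.toNat)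
  have := Module.Finite.iff_fg.2 ((Dg_fg k c).pow s.toNat)
  have := Submodule.finiteDimensional_of_le h1
  exact Module.Finite.iff_fg.1 this

theorem Es_neg' {B : Type u} [Ring B] [Algebra k B] (c : Fin m → B) (hw : ∀ j, 1 ≤ w j) {s : ℤ} (hs : s < 0) :
    Es k c w s = ⊥ := by
  rw [eq_bot_iff]
  unfold Es
  rw [Submodule.span_le]
  rintro _ ⟨l, hl, rfl⟩
  have := (wt_nonneg hw l).1
  omega

theorem pow_le_Em {K C : Submodule k H} (h : LetHyp k K x w) {W : ℕ} (hCW : C ≤ Em k K x w W) (n : ℕ) :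
    C ^ n ≤ Em k K x w ((W * n : ℕ) : ℤ) := by
  induction n with
  | zero =>
    rw [pow_zero, mul_zero, Nat.cast_zero]
    exact Submodule.one_le.2 (K_le_Em k h h.K1)
  | succ n ih =>
    rw [pow_succ]
    refine (mul_le_mul' ih hCW).trans ((Em_Em k h _ _).trans (le_of_eq ?_))
    rw [Nat.mul_succ, Nat.cast_add]

/-- the total family -/
theorem total_fam (hA : IsHopfSubalgebra k (coradical k H)) {C : Submodule k H} (hC : Pre k C)
    (h : LetHyp k (Kc k (C ⊓ coradical k H)) x w) {c : ℕ} (hx : ∀ j, x j ∈ C ^ c)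
    {B : Type u} [Ring B] [Algebra k B] (q : FreeAlgebra k (Fin m) →ₐ[k] B)
    (hq : ∀ f, q f = 0 ↔ Null k (Nm k (Kc k (C ⊓ coradical k H)) x w) x w f) (n : ℕ) :
    ∃ (r : ℕ) (e : Fin r → H), r = Module.finrank k ↥(Es k (fun j => q (FreeAlgebra.ι k j)) w ((n : ℤ) - 1)) ∧
      Fam k (Kc k (C ⊓ coradical k H)) ⊥ e ∧ (∀ i, e i ∈ C ^ (2 * c * n)) ∧
      Em k (Kc k (C ⊓ coradical k H)) x w ((n : ℤ) - 1) =
        ⊥ ⊔ Submodule.span k (Set.range e) * Kc k (C ⊓ coradical k H) := by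
  have hc := ctx_of_pre k hA hC
  set K : Submodule k H := Kc k (C ⊓ coradical k H) with hK
  have hKH : IsHopfSubalgebra k K := hc.hK
  induction n with
  | zero =>
    refine ⟨0, Fin.elim0, ?_, ⟨LS_bot k, by rw [Submodule.bot_mul], fun i => i.elim0, fun i => i.elim0⟩,
      fun i => i.elim0, ?_⟩
    · rw [Es_neg' k _ h.w1 (by norm_num), finrank_bot]
    · rw [Em_neg k h (by norm_num), Set.range_eq_empty, Submodule.span_empty, Submodule.bot_mul, bot_sup_eq]
  | succ n ih =>
    obtain ⟨r, e, hr, hF, heC, hcov⟩ := ih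
    obtain ⟨r', e', hF', he', hcov'⟩ := level_fam k hA hC h hx n
    have hrank := level_rank k hKH h (n : ℤ) hF' (fun i => (he' i).2) hcov'
    refine ⟨r + r', Fin.append e e', ?_, fam_append k hF hcov hF', ?_, ?_⟩
    · rw [show ((n + 1 : ℕ) : ℤ) - 1 = (n : ℤ) by push_cast; ring,
        Es_finrank_succ k _ w (n : ℤ) (Es_fg' k _ h.w1 _), piece_eq k h q hq, hrank, ← hr, add_comm]
    · intro i
      refine Fin.addCases (fun i => ?_) (fun i => ?_) i
      · rw [Fin.append_left]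
        exact pow_le_pow_right' (Submodule.one_le.2 hC.one) (Nat.mul_le_mul_left _ (Nat.le_succ n)) (heC i)
      · rw [Fin.append_right]
        exact pow_le_pow_right' (Submodule.one_le.2 hC.one) (Nat.mul_le_mul_left _ (Nat.le_succ n)) (he' i).1
    · rw [show ((n + 1 : ℕ) : ℤ) - 1 = (n : ℤ) by push_cast; ring, hcov', hcov, range_append,
        Submodule.span_union, Submodule.sup_mul, sup_assoc]

/-- the bounds -/
theorem count_bounds (hA : IsHopfSubalgebra k (coradical k H)) {C : Submodule k H} (hC : Pre k C)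
    (h : LetHyp k (Kc k (C ⊓ coradical k H)) x w) {c W : ℕ} (hx : ∀ j, x j ∈ C ^ c)
    (hCW : C ≤ Em k (Kc k (C ⊓ coradical k H)) x w W)
    {B : Type u} [Ring B] [Algebra k B] (q : FreeAlgebra k (Fin m) →ₐ[k] B)
    (hq : ∀ f, q f = 0 ↔ Null k (Nm k (Kc k (C ⊓ coradical k H)) x w) x w f) :
    (∀ n : ℕ, Module.finrank k ↥(C ^ n) ≤
      Module.finrank k ↥(Es k (fun j => q (FreeAlgebra.ι k j)) w ((W * n : ℕ) : ℤ)) *
        Module.finrank k ↥((C ⊓ coradical k H) ^ n)) ∧
    ∀ (s : ℕ) (D : Submodule k H), D.FG → D ≤ coradical k H →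
      Module.finrank k ↥(Es k (fun j => q (FreeAlgebra.ι k j)) w (s : ℤ)) * Module.finrank k D ≤
        Module.finrank k ↥(C ^ (2 * c * (s + 1)) * D) := by
  have hc := ctx_of_pre k hA hC
  have hfamA : ∀ s : ℕ, ∃ (r : ℕ) (e : Fin r → H),
      r = Module.finrank k ↥(Es k (fun j => q (FreeAlgebra.ι k j)) w (s : ℤ)) ∧
      Fam k (coradical k H) ⊥ e ∧ (∀ i, e i ∈ C ^ (2 * c * (s + 1))) ∧
      Em k (Kc k (C ⊓ coradical k H)) x w (s : ℤ) ≤ Submodule.span k (Set.range e) * coradical k H := by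
    intro s
    obtain ⟨r, e, hr, hF, heC, hcov⟩ := total_fam k hA hC h hx q hq (s + 1)
    have hs : ((s + 1 : ℕ) : ℤ) - 1 = (s : ℤ) := by push_cast; ring
    rw [hs] at hr hcov
    obtain ⟨hFA, _⟩ := fam_co k hc hF (fun i => (kc_facts k hC.one).2.2.2.1 _ (heC i)) bot_le (by
      rw [Submodule.bot_mul]; exact inf_le_right)
    rw [Submodule.bot_mul] at hFA
    refine ⟨r, e, hr, hFA, heC, ?_⟩
    rw [hcov, bot_sup_eq]
    exact mul_le_mul' le_rfl hc.KA
  constructor
  · intro n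
    obtain ⟨r, e, hr, hFA, heC, hcov⟩ := hfamA (W * n)
    have hCn := pow_le_Em k h hCW n
    have h2 := fam_upper k hA hFA (hC.fg.pow n) (GKC.sub_pow hC.sub n) (hCn.trans hcov)
    rw [Fintype.card_fin, hr] at h2
    refine h2.trans (Nat.mul_le_mul_left _ ?_)
    have h3 : (C ⊓ coradical k H).FG := Submodule.FG.of_le hC.fg inf_le_left
    have : Module.Finite k ↥((C ⊓ coradical k H) ^ n) := Module.Finite.iff_fg.2 (h3.pow n)
    exact Submodule.finrank_mono (nd_pow k hC.fg hC.sub n)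
  · intro s D hD hDA
    obtain ⟨r, e, hr, hFA, heC, hcov⟩ := hfamA s
    have h2 := fam_lower k hA hFA (hC.fg.pow (2 * c * (s + 1))) heC hD hDA
    rwa [Fintype.card_fin, hr] at h2

end rank

end Pool.Agent.GKU
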