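import Pool.Agent.Lib_helper2.GKU.U7
import Pool.Agent.Lib_helper54.GKP.GW

/-!
# GK dimension relative to a commutative coradical with locally nilpotent commutators
-/

set_option autoImplicit false

universe u v

namespace Pool.Agent.GKU

open TensorProduct Pool.Agent.GK Pool.Agent.GKP Pool.Agent.GKF Pool.Agent.GKC

section final
variable (k : Type u) [Field k] {H : Type v} [Ring H] [HopfAlgebra k H]

/-- one subcoalgebra -/
theorem one_pre (hA : IsHopfSubalgebra k (coradical k H)) {C : Submodule k H} (hC : Pre k C)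
    (hcomm : ∀ a ∈ C ⊓ coradical k H, ∀ b ∈ C ⊓ coradical k H, a * b = b * a) (n : ℕ)
    (hn : (br k (C ⊓ coradical k H))^[n] C = ⊥) :
    GKdim k H = ⊤ ∨ ∃ r : ℕ, GKsub k (coradical k H) + r ≤ GKdim k H ∧
      asm_L k C ≤ GKsub k (coradical k H) + r := by
  have hc := ctx_of_pre k hA hC
  obtain ⟨r, M, Y, hL⟩ := exists_lev k (coradical k H) C hA.sub le_rfl hC.fg hC.sub hC.one hA.one_mem hcomm n hn
  obtain ⟨m, x, w, W, h, hwW, hx, hCW⟩ := letters_of_lev k hL hc.hK.one_mem hc.hK.mul_le hc.hK.sub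
  obtain ⟨B, _, _, q, _, hqc, hq⟩ := exists_quot k (isFW_mod k h)
  obtain ⟨hb1, hb2⟩ := count_bounds k hA hC h hx hCW q hq
  set cB : Fin m → B := fun j => q (FreeAlgebra.ι k j) with hcB
  set R : ℕ → ℕ := fun s => Module.finrank k ↥(Es k cB w (s : ℤ)) with hR
  have hfinB : ∀ n, Module.Finite k ↥(Dg k cB ^ n) := fun n => Module.Finite.iff_fg.2 ((Dg_fg k cB).pow n)
  have hfinE : ∀ s, Module.Finite k ↥(Es k cB w s) := fun s => Module.Finite.iff_fg.2 (Es_fg' k cB h.w1 s)
  have hRle : ∀ s : ℕ, R s ≤ Module.finrank k ↥(Dg k cB ^ s) := fun s =>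
    Submodule.finrank_mono (Es_le_Dg k cB h.w1 s)
  have hRge : ∀ n : ℕ, Module.finrank k ↥(Dg k cB ^ n) ≤ R ((W + 1) * n) := fun n => by
    refine Submodule.finrank_mono ((pow_le_Es k cB w hwW n).trans (Es_mono k cB w ?_))
    push_cast
    nlinarith [Int.natCast_nonneg n]
  have hRmono : Monotone R := fun a b hab =>
    Submodule.finrank_mono (Es_mono k cB w (by exact_mod_cast hab))
  have hEf : (C ⊓ coradical k H).FG := Submodule.FG.of_le hC.fg inf_le_left
  rcases growth_prim k cB hqc with ⟨V, hV, hexp⟩ | ⟨d, a, b, ha, hpoly⟩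
  · left
    set c' : ℕ := 2 * (n + 1) * ((W + 1) * V + 1) with hc'
    have h1 : asm_L k C = ⊤ := by
      refine asm_L_top k (W := c') (Nat.mul_pos (by omega) (Nat.succ_pos _)) fun t ht => ?_
      have h1fg : (1 : Submodule k H).FG := by
        rw [Submodule.one_eq_span]
        exact Submodule.fg_span_singleton 1
      have h2 := hb2 ((W + 1) * (V * t ^ 2)) 1 h1fg (Submodule.one_le.2 hA.one_mem)
      have h3 : Module.finrank k ↥(1 : Submodule k H) = 1 := by
        rw [Submodule.one_eq_span]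
        have hnt : Nontrivial H := Bialgebra.nontrivial (R := k)
        exact finrank_span_singleton one_ne_zero
      rw [h3, mul_one, mul_one] at h2
      refine ((hexp t ht).trans (hRge _)).trans (h2.trans ?_)
      have : Module.Finite k ↥(C ^ (c' * t ^ 2)) := Module.Finite.iff_fg.2 (hC.fg.pow _)
      refine Submodule.finrank_mono (pow_le_pow_right' (Submodule.one_le.2 hC.one) ?_)
      rw [hc']
      have h4 : 1 ≤ t ^ 2 := Nat.one_le_pow _ _ ht
      calc 2 * (n + 1) * ((W + 1) * (V * t ^ 2) + 1) ≤ 2 * (n + 1) * ((W + 1) * (V * t ^ 2) + t ^ 2) :=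
            Nat.mul_le_mul_left _ (Nat.add_le_add_left h4 _)
        _ = 2 * (n + 1) * ((W + 1) * V + 1) * t ^ 2 := by ring
    rw [eq_top_iff, ← h1]
    exact le_GKdim k (Submodule.one_le.2 hC.one) hC.fg
  · right
    refine ⟨d, ?_, ?_⟩
    · -- lower bound
      obtain ⟨t, ht1, ht⟩ : ∃ t : ℕ, 1 ≤ t ∧ ∀ n : ℕ, 1 ≤ n → n ^ d ≤ R ((W + 1) * (t * n)) := by
        obtain ⟨t0, ht0⟩ := exists_nat_ge (1 / a)
        refine ⟨t0 + 1, Nat.succ_pos _, fun n hn => ?_⟩
        have h1 := (hpoly ((t0 + 1) * n) (Nat.mul_pos (Nat.succ_pos _) hn)).1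
        have h2 : (Module.finrank k ↥(Dg k cB ^ ((t0 + 1) * n)) : ℝ) ≤ (R ((W + 1) * ((t0 + 1) * n)) : ℝ) := by
          exact_mod_cast hRge _
        rcases Nat.eq_zero_or_pos d with hd | hd
        · subst hd
          have h3 : 0 < R ((W + 1) * ((t0 + 1) * n)) := by
            rw [pow_zero, mul_one] at h1
            have : (0 : ℝ) < (R ((W + 1) * ((t0 + 1) * n)) : ℝ) := lt_of_lt_of_le ha (h1.trans h2)
            exact_mod_cast this
          rw [pow_zero]
          exact h3
        · have h3 : (1 : ℝ) ≤ a * ((t0 : ℝ) + 1) := by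
            have h4 : 1 / a ≤ (t0 : ℝ) + 1 := by linarith
            rw [div_le_iff₀ ha] at h4
            linarith
          have h4 : (1 : ℝ) ≤ a * ((t0 : ℝ) + 1) ^ d := by
            have h5 : ((t0 : ℝ) + 1) ≤ ((t0 : ℝ) + 1) ^ d := by
              refine le_self_pow₀ ?_ (by omega)
              have : (0 : ℝ) ≤ t0 := Nat.cast_nonneg _
              linarith
            nlinarith
          have h5 : (n : ℝ) ^ d ≤ a * (((t0 + 1) * n : ℕ) : ℝ) ^ d := by
            push_cast
            rw [mul_pow, ← mul_assoc]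
            have h6 : (0 : ℝ) ≤ (n : ℝ) ^ d := by positivity
            nlinarith
          have h6 : (n : ℝ) ^ d ≤ (R ((W + 1) * ((t0 + 1) * n)) : ℝ) := h5.trans (h1.trans h2)
          exact_mod_cast h6
      refine gw_lower k (A := coradical k H) (V := C) hA.one_mem hA.mul_le hC.fg hC.one
        (2 * (n + 1) * ((W + 1) * t + 1)) d fun N D hD _ hDA => ?_
      have h1 : N ^ d ≤ R ((W + 1) * (t * (N + 1))) :=
        (Nat.pow_le_pow_left (Nat.le_succ N) d).trans (ht (N + 1) (Nat.succ_pos N))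
      have h2 := hb2 ((W + 1) * (t * (N + 1))) D hD hDA
      have : Module.Finite k ↥(C ^ (2 * (n + 1) * ((W + 1) * t + 1) * (N + 1)) * D) :=
        Module.Finite.iff_fg.2 ((hC.fg.pow _).mul hD)
      calc N ^ d * Module.finrank k D ≤ R ((W + 1) * (t * (N + 1))) * Module.finrank k D :=
            Nat.mul_le_mul_right _ h1
        _ ≤ _ := h2
        _ ≤ _ := by
            refine Submodule.finrank_mono (mul_le_mul' (pow_le_pow_right' (Submodule.one_le.2 hC.one) ?_) le_rfl)
            calc 2 * (n + 1) * ((W + 1) * (t * (N + 1)) + 1) ≤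
                  2 * (n + 1) * ((W + 1) * (t * (N + 1)) + (N + 1)) :=
                  Nat.mul_le_mul_left _ (Nat.add_le_add_left (Nat.succ_pos N) _)
              _ = 2 * (n + 1) * ((W + 1) * t + 1) * (N + 1) := by ring
    · -- upper bound
      obtain ⟨c0, hc0⟩ := exists_nat_ge (b * ((W : ℝ) + 1) ^ d)
      refine gw_upper k (A := coradical k H) hC.fg hC.one hEf ⟨hC.one, hA.one_mem⟩ inf_le_right (c0 + 1) d
        fun N => ?_
      refine (hb1 N).trans (Nat.mul_le_mul_right _ ?_)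
      have h1 : R (W * N) ≤ R ((W + 1) * (N + 1)) := hRmono (by nlinarith)
      refine h1.trans ?_
      have h2 := (hpoly ((W + 1) * (N + 1)) (Nat.mul_pos (Nat.succ_pos _) (Nat.succ_pos _))).2
      have h3 : (R ((W + 1) * (N + 1)) : ℝ) ≤ (Module.finrank k ↥(Dg k cB ^ ((W + 1) * (N + 1))) : ℝ) := by
        exact_mod_cast hRle _
      have h4 : (R ((W + 1) * (N + 1)) : ℝ) ≤ (((c0 + 1) * (N + 1) ^ d : ℕ) : ℝ) := by
        refine (h3.trans h2).trans ?_
        push_cast
        rw [mul_pow, ← mul_assoc]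
        refine mul_le_mul_of_nonneg_right ?_ (by positivity)
        linarith
      exact_mod_cast h4

/-- The relative theorem. -/
theorem rel_main (hA : IsHopfSubalgebra k (coradical k H))
    (hcomm : ∀ a ∈ coradical k H, ∀ b ∈ coradical k H, a * b = b * a)
    (hnil : ∀ a ∈ coradical k H, ∀ x : H, ∃ n : ℕ, (fun y => a * y - y * a)^[n] x = 0) :
    GKdim k H = ⊤ ∨ ∃ m : ℕ, GKdim k H = GKsub k (coradical k H) + m := by
  have hnil' : ∀ a ∈ coradical k H, ∀ x : H, ∃ n : ℕ, ((cm k a)^[n]) x = 0 := by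
    intro a ha x
    obtain ⟨n, hn⟩ := hnil a ha x
    refine ⟨n, ?_⟩
    have : ((cm k a : H →ₗ[k] H) : H → H) = fun y => a * y - y * a := funext fun y => cm_apply k a y
    rw [this]
    exact hn
  by_cases htop : GKdim k H = ⊤
  · exact Or.inl htop
  right
  have hone : ∀ C : Submodule k H, Pre k C → ∃ r : ℕ, GKsub k (coradical k H) + r ≤ GKdim k H ∧
      asm_L k C ≤ GKsub k (coradical k H) + r := by
    intro C hC
    have hEf : (C ⊓ coradical k H).FG := Submodule.FG.of_le hC.fg inf_le_left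
    obtain ⟨n, hn⟩ := exists_iter k hcomm hnil' hEf inf_le_right hC.fg
    rcases one_pre k hA hC (fun a ha b hb => hcomm a ha.2 b hb.2) n hn with h | h
    · exact absurd h htop
    · exact h
  choose r hr1 hr2 using hone
  have hbdd : ∃ N : ℕ, ∀ (C : Submodule k H) (hC : Pre k C), r C hC ≤ N := by
    by_contra hcon
    push Not at hcon
    apply htop
    rw [eq_top_iff]
    refine ENNReal.le_of_forall_nnreal_lt fun y hy => ?_
    obtain ⟨N, hN⟩ := exists_nat_ge y
    obtain ⟨C, hC, hlt⟩ := hcon N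
    calc (y : ENNReal) ≤ (N : ENNReal) := by exact_mod_cast hN
      _ ≤ (r C hC : ENNReal) := by exact_mod_cast hlt.le
      _ ≤ GKsub k (coradical k H) + r C hC := le_add_self
      _ ≤ GKdim k H := hr1 C hC
  obtain ⟨C0, hC0, hmax⟩ : ∃ (C0 : Submodule k H) (hC0 : Pre k C0), ∀ (C : Submodule k H) (hC : Pre k C),
      r C hC ≤ r C0 hC0 := by
    obtain ⟨N, hN⟩ := hbdd
    let S : Set ℕ := {t | ∃ (C : Submodule k H) (hC : Pre k C), r C hC = t}
    have hS : S.Nonempty := by
      obtain ⟨C, hC, _⟩ := pre_exists k hA (V := (⊥ : Submodule k H)) Submodule.fg_bot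
      exact ⟨_, C, hC, rfl⟩
    have hSb : BddAbove S := ⟨N, by rintro _ ⟨C, hC, rfl⟩; exact hN C hC⟩
    obtain ⟨C0, hC0, h0⟩ := Nat.sSup_mem hS hSb
    refine ⟨C0, hC0, fun C hC => ?_⟩
    rw [h0]
    exact le_csSup hSb ⟨C, hC, rfl⟩
  refine ⟨r C0 hC0, le_antisymm ?_ (hr1 C0 hC0)⟩
  refine iSup₂_le fun V hV => ?_
  obtain ⟨C, hC, hVC⟩ := pre_exists k hA hV.2
  refine (asm_L_mono k hVC hC.fg).trans ((hr2 C hC).trans ?_)
  exact add_le_add le_rfl (by exact_mod_cast hmax C hC)

end final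

end Pool.Agent.GKU
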