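import Pool.Agent.Lib_helper2.GKU.U8

/-!
# Commutative subalgebras have integral or infinite GK dimension
-/

set_option autoImplicit false

universe u v

namespace Pool.Agent.GKU

open TensorProduct Pool.Agent.GK Pool.Agent.GKP Pool.Agent.GKF Pool.Agent.GKC

section comm
variable (k : Type u) [Field k] {H : Type v} [Ring H] [Bialgebra k H]

theorem isLieGen_comm {m : ℕ} (x : Fin m → H) (hx : ∀ i j, x i * x j = x j * x i) :
    IsLieGen k (fun n => Dg k x ^ n) x (fun _ => 1) where
  wpos := fun _ => le_rfl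
  mem := fun i => by show x i ∈ Dg k x ^ 1; rw [pow_one]; exact Dg_x k x i
  comm := fun i j => by
    rw [hx i j, sub_self]
    exact Submodule.zero_mem _
  gen := by
    intro n hn
    obtain ⟨n, rfl⟩ := Nat.exists_eq_add_of_le' hn
    show Dg k x ^ (n + 1) ≤ _
    rw [pow_succ', Submodule.mul_le]
    intro a ha y hy
    unfold Dg at ha
    induction ha using Submodule.span_induction with
    | mem z hz =>
      rcases hz with rfl | ⟨j, rfl⟩
      · rw [one_mul]
        exact Submodule.mem_sup_left hy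
      · exact Submodule.mem_sup_right (Submodule.subset_span ⟨j, by omega, y, hy, rfl⟩)
    | zero => rw [zero_mul]; exact Submodule.zero_mem _
    | add z z' _ _ hz hz' => rw [add_mul]; exact Submodule.add_mem _ hz hz'
    | smul a z _ hz => rw [smul_mul_assoc]; exact Submodule.smul_mem _ _ hz

theorem comm_val {V : Submodule k H} (hV : V.FG) (h1 : 1 ≤ V) (hcomm : ∀ a ∈ V, ∀ b ∈ V, a * b = b * a) :
    ∃ r : ℕ, asm_L k V = (r : ENNReal) := by
  obtain ⟨S, hS⟩ := hV
  let e : Fin S.card ≃ S := S.equivFin.symm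
  let x : Fin S.card → H := fun i => (e i : H)
  have hxV : ∀ i, x i ∈ V := fun i => by
    rw [← hS]
    exact Submodule.subset_span (e i).2
  have hD : Dg k x = V := by
    apply le_antisymm
    · unfold Dg
      rw [Submodule.span_le, Set.insert_subset_iff]
      refine ⟨Submodule.one_le.1 h1, ?_⟩
      rintro _ ⟨i, rfl⟩
      exact hxV i
    · conv_lhs => rw [← hS]
      rw [Submodule.span_le]
      intro y hy
      refine Submodule.subset_span (Set.mem_insert_of_mem _ ⟨e.symm ⟨y, hy⟩, ?_⟩)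
      show ((e (e.symm ⟨y, hy⟩) : S) : H) = y
      rw [Equiv.apply_symm_apply]
  have hlie := isLieGen_comm k x (fun i j => hcomm _ (hxV i) _ (hxV j))
  obtain ⟨E, hE, h0, hcard⟩ := pbw_pr k (F := fun n => Dg k x ^ n) (by rw [pow_zero, Submodule.one_eq_span])
    (fun a b h => Dg_mono k x h) (fun a b y hy z hz => by
      show y * z ∈ Dg k x ^ (a + b)
      rw [pow_add]
      exact Submodule.mul_mem_mul hy hz) hlie
  obtain ⟨r, c, C, hc, hb⟩ := dick_pr (fun _ : Fin S.card => 1) (fun _ => le_rfl) E hE h0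
  refine ⟨r, asm_L_eq k (c := c) (C := C) hc (fun n hn => ?_) (fun n hn => ?_)⟩
  · have := (hb n hn).1
    rw [← hcard n] at this
    rw [← hD]
    exact this
  · have := (hb n hn).2
    rw [← hcard n] at this
    rw [← hD]
    exact this

theorem GKsub_comm {A : Submodule k H} (h1 : (1 : H) ∈ A) (hcomm : ∀ a ∈ A, ∀ b ∈ A, a * b = b * a) :
    GKsub k A = ⊤ ∨ ∃ m : ℕ, GKsub k A = (m : ENNReal) := by
  let ι := {V : Submodule k H // (1 ≤ V ∧ V.FG) ∧ V ≤ A}
  have hkey : GKsub k A = ⨆ i : ι, asm_L k i.1 := by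
    apply le_antisymm
    · refine iSup₂_le (fun V hV => ?_)
      exact le_iSup (fun i : ι => asm_L k i.1) ⟨V, hV⟩
    · refine iSup_le (fun i => ?_)
      exact le_iSup₂_of_le (f := fun (V : Submodule k H) (_ : (1 ≤ V ∧ V.FG) ∧ V ≤ A) => asm_L k V) i.1 i.2 le_rfl
  have : Nonempty ι := by
    refine ⟨⟨Submodule.span k {1}, ⟨by rw [Submodule.one_eq_span], Submodule.fg_span_singleton 1⟩, ?_⟩⟩
    rwa [Submodule.span_singleton_le_iff_mem]
  rw [hkey]
  refine asm_sup _ (fun i => ?_)
  right
  exact comm_val k i.2.1.2 i.2.1.1 fun a ha b hb => hcomm a (i.2.2 ha) b (i.2.2 hb)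

end comm

section final
variable (k : Type u) [Field k] {H : Type v} [Ring H] [HopfAlgebra k H]

theorem abs_main (hA : IsHopfSubalgebra k (coradical k H))
    (hcomm : ∀ a ∈ coradical k H, ∀ b ∈ coradical k H, a * b = b * a)
    (hnil : ∀ a ∈ coradical k H, ∀ x : H, ∃ n : ℕ, (fun y => a * y - y * a)^[n] x = 0) :
    GKdim k H = ⊤ ∨ ∃ m : ℕ, GKdim k H = (m : ENNReal) := by
  rcases rel_main k hA hcomm hnil with h | ⟨m, h⟩
  · exact Or.inl h
  · rcases GKsub_comm k hA.one_mem hcomm with h' | ⟨r, h'⟩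
    · left; rw [h, h', top_add]
    · right; exact ⟨r + m, by rw [h, h']; push_cast; rfl⟩

end final

end Pool.Agent.GKU
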